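import Pool.Agent.Lib.MP_6b2d39_agUq.ThinQ

set_option autoImplicit false

namespace Pool.Agent.Lib.MP_6b2d39_agUq

/-- UQ12. `thin_q` with `J = {x ∈ Icc 1 M | M < 2 x}`, `J.card ≥ M / 2`, `θ = n / 4`:
`2 ^ (1 / 4) * (3 / 4) ≤ 9 / 10`. -/
theorem atyp_q {n M : ℕ} (hM : 1 ≤ M) :
    (((Fintype.piFinset fun _ : Fin n => Finset.Icc 1 M).filter fun μ =>
      4 * (Finset.univ.filter fun i => M < 2 * μ i).card < n).card : ℝ) ≤
      (9 / 10 : ℝ) ^ n * (M : ℝ) ^ n := by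
  classical
  set J : Finset ℕ := (Finset.Icc 1 M).filter fun x => M < 2 * x with hJdef
  have hJ : J ⊆ Finset.Icc 1 M := Finset.filter_subset _ _
  have hJc : M ≤ 2 * J.card := by
    have h1 : Finset.Icc (M / 2 + 1) M ⊆ J := by
      intro x hx
      rw [Finset.mem_Icc] at hx
      rw [hJdef, Finset.mem_filter, Finset.mem_Icc]
      omega
    have h2 := Finset.card_le_card h1
    rw [Nat.card_Icc] at h2
    omega
  have h := thin_q (n := n) (M := M) J hJ ((n : ℝ) / 4)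
  have hsub : ((Fintype.piFinset fun _ : Fin n => Finset.Icc 1 M).filter fun μ =>
      4 * (Finset.univ.filter fun i => M < 2 * μ i).card < n) ⊆
      ((Fintype.piFinset fun _ : Fin n => Finset.Icc 1 M).filter fun μ =>
      ((Finset.univ.filter fun i => μ i ∈ J).card : ℝ) < (n : ℝ) / 4) := by
    intro μ hμ
    rw [Finset.mem_filter] at hμ ⊢
    refine ⟨hμ.1, ?_⟩
    have h3 : (Finset.univ.filter fun i => μ i ∈ J).card ≤
        (Finset.univ.filter fun i => M < 2 * μ i).card := by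
      apply Finset.card_le_card
      intro i hi
      rw [Finset.mem_filter] at hi ⊢
      refine ⟨hi.1, ?_⟩
      have := hi.2
      rw [hJdef, Finset.mem_filter] at this
      exact this.2
    have h4 : 4 * (Finset.univ.filter fun i => μ i ∈ J).card < n := by
      have := hμ.2
      omega
    have h5 : (4 : ℝ) * ((Finset.univ.filter fun i => μ i ∈ J).card : ℝ) < n := by
      exact_mod_cast h4
    linarith
  have hc : (((Fintype.piFinset fun _ : Fin n => Finset.Icc 1 M).filter fun μ =>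
      4 * (Finset.univ.filter fun i => M < 2 * μ i).card < n).card : ℝ) ≤
      (2 : ℝ) ^ ((n : ℝ) / 4) * ((M : ℝ) - (J.card : ℝ) / 2) ^ n :=
    le_trans (by exact_mod_cast Finset.card_le_card hsub) h
  refine le_trans hc ?_
  have hM0 : (0 : ℝ) ≤ M := Nat.cast_nonneg _
  have hJle : J.card ≤ M := by
    have := Finset.card_le_card hJ
    rw [Nat.card_Icc] at this
    omega
  have hb0 : (0 : ℝ) ≤ (M : ℝ) - (J.card : ℝ) / 2 := by
    have h6 : (J.card : ℝ) ≤ M := by exact_mod_cast hJle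
    have h7 : (0 : ℝ) ≤ (J.card : ℝ) := Nat.cast_nonneg _
    linarith
  have hb1 : (M : ℝ) - (J.card : ℝ) / 2 ≤ 3 / 4 * (M : ℝ) := by
    have h6 : (M : ℝ) ≤ 2 * (J.card : ℝ) := by exact_mod_cast hJc
    linarith
  have hpow : ((M : ℝ) - (J.card : ℝ) / 2) ^ n ≤ (3 / 4 * (M : ℝ)) ^ n :=
    pow_le_pow_left₀ hb0 hb1 n
  have htwo : (2 : ℝ) ^ ((n : ℝ) / 4) ≤ (6 / 5 : ℝ) ^ n := by
    have h8 : (2 : ℝ) ^ ((n : ℝ) / 4) ≤ ((6 / 5 : ℝ) ^ (4 : ℝ)) ^ ((n : ℝ) / 4) := by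
      apply Real.rpow_le_rpow (by norm_num)
      · have : ((6 / 5 : ℝ) ^ (4 : ℝ)) = (6 / 5 : ℝ) ^ (4 : ℕ) := by
          rw [← Real.rpow_natCast]; norm_num
        rw [this]; norm_num
      · positivity
    rw [← Real.rpow_mul (by norm_num)] at h8
    have h9 : (4 : ℝ) * ((n : ℝ) / 4) = (n : ℝ) := by ring
    rw [h9, Real.rpow_natCast] at h8
    exact h8
  calc (2 : ℝ) ^ ((n : ℝ) / 4) * ((M : ℝ) - (J.card : ℝ) / 2) ^ n
      ≤ (6 / 5 : ℝ) ^ n * (3 / 4 * (M : ℝ)) ^ n := by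
        apply mul_le_mul htwo hpow (pow_nonneg hb0 n) (by positivity)
    _ = (9 / 10 : ℝ) ^ n * (M : ℝ) ^ n := by
        rw [mul_pow, ← mul_assoc, ← mul_pow]
        norm_num

end Pool.Agent.Lib.MP_6b2d39_agUq
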