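import Mathlib

/-!
Counting the pairs `(m, d)` with `|C(d+2, 2) - C(m+1, 2) - a| < W`, `m ≤ M`, `d + 1 ≥ D`.
-/

set_option autoImplicit false

namespace Pool.Agent.Lib.MP_6b2d39_agUq

private theorem blk_gap {S : Finset ℕ} {g X : ℝ} (hg : 0 < g) (hX : 0 ≤ X)
    (h : ∀ x ∈ S, ∀ y ∈ S, x < y → ((y : ℝ) - x) * g ≤ X) : (S.card : ℝ) ≤ X / g + 1 := by
  rcases S.eq_empty_or_nonempty with rfl | hne
  · simp only [Finset.card_empty, Nat.cast_zero]
    positivity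
  · set m := S.min' hne with hm
    have hmS : m ∈ S := S.min'_mem hne
    have hsub : S ⊆ Finset.Icc m (m + ⌊X / g⌋₊) := by
      intro x hx
      have h1 : m ≤ x := S.min'_le x hx
      rw [Finset.mem_Icc]
      refine ⟨h1, ?_⟩
      rcases Nat.lt_or_ge m x with h2 | h2
      · have h3 := h m hmS x hx h2
        have h4 : ((x - m : ℕ) : ℝ) ≤ X / g := by
          rw [Nat.cast_sub h1, le_div_iff₀ hg]
          exact h3
        have h5 : x - m ≤ ⌊X / g⌋₊ := Nat.le_floor h4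
        omega
      · omega
    have h5 := Finset.card_le_card hsub
    rw [Nat.card_Icc] at h5
    have h6 : (⌊X / g⌋₊ : ℝ) ≤ X / g := Nat.floor_le (by positivity)
    have h7 : (S.card : ℝ) ≤ (⌊X / g⌋₊ : ℝ) + 1 := by
      have h8 : S.card ≤ ⌊X / g⌋₊ + 1 := by omega
      exact_mod_cast h8
    linarith

private theorem blk_ch (m : ℕ) : (((m + 1).choose 2 : ℕ) : ℝ) = (m : ℝ) * (m + 1) / 2 := by
  have h := Nat.cast_choose_two ℝ (m + 1)
  rw [h]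
  push_cast
  ring

/-- UQ4 (a block `T < m ≤ 2 T`). For one `d` two such `m < m'` have
`(m' - m) T ≤ C(m'+1,2) - C(m+1,2) < 2 W`: at most `2 W / T + 1 ≤ 3 W / T` of them. The numbers
`C(d+2,2)` of the `d` which occur lie in an interval of length
`(2 T ^ 2 + T) - T ^ 2 / 2 + 2 W ≤ 4.5 T ^ 2`, and `C(d'+2,2) - C(d+2,2) ≥ (d' - d) D` for `d < d'`:
at most `4.5 T ^ 2 / D + 1` of them. Product: `13.5 T W / D + 3 W / T`. (`card_gap` of
`Lib/MP_6b2d39_agUa/Band.lean` is the same with natural numbers, it may be useful.) -/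
theorem blk_q (M K : ℕ) (a : ℤ) (D W T : ℝ) (hD : 1 ≤ D) (hT : 1 ≤ T) (hTW : T ≤ W)
    (hWT : W ≤ T ^ 2) :
    (((Finset.range (M + 1) ×ˢ Finset.range K).filter (fun p : ℕ × ℕ =>
      (T < (p.1 : ℝ) ∧ (p.1 : ℝ) ≤ 2 * T) ∧ D ≤ (p.2 : ℝ) + 1 ∧
        |(((p.2 + 2).choose 2 : ℕ) : ℝ) - (((p.1 + 1).choose 2 : ℕ) : ℝ) - (a : ℝ)| < W)).card : ℝ) ≤
      14 * T * W / D + 3 * W / T := by
  classical
  set F := (Finset.range (M + 1) ×ˢ Finset.range K).filter (fun p : ℕ × ℕ =>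
      (T < (p.1 : ℝ) ∧ (p.1 : ℝ) ≤ 2 * T) ∧ D ≤ (p.2 : ℝ) + 1 ∧
        |(((p.2 + 2).choose 2 : ℕ) : ℝ) - (((p.1 + 1).choose 2 : ℕ) : ℝ) - (a : ℝ)| < W) with hF
  have hT0 : 0 < T := by linarith
  have hW0 : 0 < W := by linarith
  have hD0 : 0 < D := by linarith
  have hmem : ∀ p ∈ F, (T < (p.1 : ℝ) ∧ (p.1 : ℝ) ≤ 2 * T) ∧ D ≤ (p.2 : ℝ) + 1 ∧
      -W < ((p.2 : ℝ) + 1) * (p.2 + 2) / 2 - (p.1 : ℝ) * (p.1 + 1) / 2 - (a : ℝ) ∧
      ((p.2 : ℝ) + 1) * (p.2 + 2) / 2 - (p.1 : ℝ) * (p.1 + 1) / 2 - (a : ℝ) < W := by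
    intro p hp
    rw [hF, Finset.mem_filter] at hp
    obtain ⟨_, h1, h2, h3⟩ := hp
    rw [abs_lt] at h3
    have e1 : (((p.2 + 2).choose 2 : ℕ) : ℝ) = ((p.2 : ℝ) + 1) * (p.2 + 2) / 2 := by
      have h := blk_ch (p.2 + 1)
      rw [show p.2 + 1 + 1 = p.2 + 2 by omega] at h
      rw [h]
      push_cast
      ring
    rw [e1, blk_ch p.1] at h3
    exact ⟨h1, h2, h3.1, h3.2⟩
  -- the fibres
  have hfib : ∀ d ∈ F.image Prod.snd,
      (((F.filter (fun p => p.2 = d)).card : ℕ) : ℝ) ≤ 3 * W / T := by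
    intro d _
    have hinj : ((F.filter (fun p => p.2 = d)).image Prod.fst).card =
        (F.filter (fun p => p.2 = d)).card := by
      apply Finset.card_image_of_injOn
      intro p hp q hq hpq
      rw [Finset.coe_filter, Set.mem_setOf_eq] at hp hq
      exact Prod.ext hpq (hp.2.trans hq.2.symm)
    rw [← hinj]
    have h1 := blk_gap (S := (F.filter (fun p => p.2 = d)).image Prod.fst) (g := T)
      (X := 2 * W) hT0 (by linarith) (by
        intro x hx y hy hxy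
        rw [Finset.mem_image] at hx hy
        obtain ⟨p, hp, rfl⟩ := hx
        obtain ⟨q, hq, rfl⟩ := hy
        rw [Finset.mem_filter] at hp hq
        obtain ⟨⟨p1, p2⟩, _, p3, p4⟩ := hmem p hp.1
        obtain ⟨⟨q1, q2⟩, _, q3, q4⟩ := hmem q hq.1
        rw [hp.2] at p3 p4
        rw [hq.2] at q3 q4
        have hlt : (p.1 : ℝ) + 1 ≤ (q.1 : ℝ) := by exact_mod_cast hxy
        nlinarith [mul_nonneg (sub_nonneg.2 (by linarith : (p.1 : ℝ) ≤ q.1))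
          (by linarith : (0 : ℝ) ≤ (p.1 : ℝ) + q.1 + 1 - 2 * T)])
    have h2 : 2 * W / T + 1 ≤ 3 * W / T := by
      rw [div_add_one hT0.ne']
      apply div_le_div_of_nonneg_right _ hT0.le
      linarith
    linarith
  -- the degrees
  have hdeg : ((F.image Prod.snd).card : ℝ) ≤ (9 / 2) * T ^ 2 / D + 1 := by
    apply blk_gap hD0 (by positivity)
    intro x hx y hy hxy
    rw [Finset.mem_image] at hx hy
    obtain ⟨p, hp, rfl⟩ := hx
    obtain ⟨q, hq, rfl⟩ := hy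
    obtain ⟨⟨p1, p2⟩, p0, p3, p4⟩ := hmem p hp
    obtain ⟨⟨q1, q2⟩, q0, q3, q4⟩ := hmem q hq
    have hlt : (p.2 : ℝ) + 1 ≤ (q.2 : ℝ) := by exact_mod_cast hxy
    have h1 : ((q.2 : ℝ) + 1) * (q.2 + 2) / 2 - ((p.2 : ℝ) + 1) * (p.2 + 2) / 2 ≤
        (9 / 2) * T ^ 2 := by
      have h2 : (q.1 : ℝ) * (q.1 + 1) / 2 ≤ 2 * T ^ 2 + T := by nlinarith
      have h3 : T ^ 2 / 2 ≤ (p.1 : ℝ) * (p.1 + 1) / 2 := by nlinarith
      nlinarith
    have h4 : ((q.2 : ℝ) - p.2) * D ≤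
        ((q.2 : ℝ) + 1) * (q.2 + 2) / 2 - ((p.2 : ℝ) + 1) * (p.2 + 2) / 2 := by
      nlinarith [mul_nonneg (sub_nonneg.2 (by linarith : (p.2 : ℝ) ≤ q.2))
          (by linarith : (0 : ℝ) ≤ (p.2 : ℝ) + q.2 + 3 - 2 * D)]
    linarith
  have hcard : (F.card : ℝ) = ∑ d ∈ F.image Prod.snd,
      (((F.filter (fun p => p.2 = d)).card : ℕ) : ℝ) := by
    rw [← Nat.cast_sum]
    exact_mod_cast Finset.card_eq_sum_card_image Prod.snd F
  have hsum : (F.card : ℝ) ≤ ((F.image Prod.snd).card : ℝ) * (3 * W / T) := by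
    rw [hcard]
    calc _ ≤ ∑ _d ∈ F.image Prod.snd, 3 * W / T := Finset.sum_le_sum hfib
      _ = _ := by rw [Finset.sum_const, nsmul_eq_mul]
  have h9 : ((9 / 2) * T ^ 2 / D + 1) * (3 * W / T) = (27 / 2) * T * W / D + 3 * W / T := by
    field_simp
    ring
  have h10 : (27 / 2) * T * W / D ≤ 14 * T * W / D := by
    apply div_le_div_of_nonneg_right _ hD0.le
    have : 0 ≤ T * W := by positivity
    nlinarith
  have h11 : ((F.image Prod.snd).card : ℝ) * (3 * W / T) ≤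
      ((9 / 2) * T ^ 2 / D + 1) * (3 * W / T) :=
    mul_le_mul_of_nonneg_right hdeg (by positivity)
  linarith

end Pool.Agent.Lib.MP_6b2d39_agUq
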