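import Mathlib

set_option autoImplicit false

namespace Pool.Agent.Lib.MP_6b2d39_agUq

/-- UQ7 (exponential moment). The sum of `(1 / 2) ^ (number of i with μ i ∈ J)` over the box is
`(∑ x ∈ Icc 1 M, (if x ∈ J then 1 / 2 else 1)) ^ n = (M - J.card / 2) ^ n`
(`Finset.prod_univ_sum` or `Finset.sum_prod_piFinset`), and every element of the set contributes at
least `(1 / 2) ^ θ`. -/
theorem thin_q {n M : ℕ} (J : Finset ℕ) (hJ : J ⊆ Finset.Icc 1 M) (θ : ℝ) :
    (((Fintype.piFinset fun _ : Fin n => Finset.Icc 1 M).filter fun μ =>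
      ((Finset.univ.filter fun i => μ i ∈ J).card : ℝ) < θ).card : ℝ) ≤
      (2 : ℝ) ^ θ * ((M : ℝ) - (J.card : ℝ) / 2) ^ n := by
  obtain ⟨g, hg⟩ : ∃ g : ℕ → ℝ, g = fun x => if x ∈ J then (1 / 2 : ℝ) else 1 := ⟨_, rfl⟩
  have hg0 : ∀ x, 0 ≤ g x := by
    intro x
    rw [hg]
    dsimp only
    split_ifs <;> norm_num
  have h1 : ∑ x ∈ Finset.Icc 1 M, g x = (M : ℝ) - (J.card : ℝ) / 2 := by
    have h2 : ∀ x ∈ Finset.Icc 1 M, g x = 1 - (if x ∈ J then (1 / 2 : ℝ) else 0) := by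
      intro x _
      rw [hg]
      dsimp only
      split_ifs <;> norm_num
    have h3 : (Finset.Icc 1 M).filter (fun x => x ∈ J) = J := by
      ext x
      rw [Finset.mem_filter]
      exact ⟨fun h => h.2, fun h => ⟨hJ h, h⟩⟩
    rw [Finset.sum_congr rfl h2, Finset.sum_sub_distrib, ← Finset.sum_filter, h3,
      Finset.sum_const, Finset.sum_const, Nat.card_Icc, nsmul_eq_mul, nsmul_eq_mul]
    simp only [Nat.add_sub_cancel]
    ring
  have h4 : ((M : ℝ) - (J.card : ℝ) / 2) ^ n =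
      ∑ μ ∈ Fintype.piFinset fun _ : Fin n => Finset.Icc 1 M, ∏ i, g (μ i) := by
    rw [← Finset.prod_univ_sum, Finset.prod_const, Finset.card_univ, Fintype.card_fin, h1]
  have h5 : ∀ μ : Fin n → ℕ,
      ∏ i, g (μ i) = (1 / 2 : ℝ) ^ (Finset.univ.filter fun i => μ i ∈ J).card := by
    intro μ
    rw [hg]
    dsimp only
    rw [Finset.prod_ite, Finset.prod_const, Finset.prod_const_one, mul_one]
  have h6 : ∀ μ ∈ (Fintype.piFinset fun _ : Fin n => Finset.Icc 1 M).filter (fun μ =>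
      ((Finset.univ.filter fun i => μ i ∈ J).card : ℝ) < θ),
      (1 : ℝ) ≤ (2 : ℝ) ^ θ * ∏ i, g (μ i) := by
    intro μ hμ
    have h7 := (Finset.mem_filter.1 hμ).2
    rw [h5, one_div, inv_pow, ← div_eq_mul_inv, le_div_iff₀ (by positivity), one_mul,
      ← Real.rpow_natCast]
    exact Real.rpow_le_rpow_of_exponent_le (by norm_num) h7.le
  have h8 : (0 : ℝ) ≤ (2 : ℝ) ^ θ := Real.rpow_nonneg (by norm_num) θ
  rw [h4, Finset.mul_sum, Finset.card_eq_sum_ones]
  push_cast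
  refine (Finset.sum_le_sum h6).trans ?_
  refine Finset.sum_le_sum_of_subset_of_nonneg (Finset.filter_subset _ _) fun μ _ _ => ?_
  exact mul_nonneg h8 (Finset.prod_nonneg fun i _ => hg0 _)

end Pool.Agent.Lib.MP_6b2d39_agUq
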