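import Pool.Agent.Lib.MP_6b2d39_agUq.CritQ
import Pool.Agent.Lib.MP_6b2d39_agUq.ThinQ

set_option autoImplicit false

namespace Pool.Agent.Lib.MP_6b2d39_agUq

open Pool.Agent.Lib.MP_6b2d39_agCr

/-- The choice of `A`. -/
private lemma expq_A {n M : ℕ} (hM : 1 ≤ M) (hn : 10 ^ 9 * M ≤ n) :
    ∃ A : ℕ, 1 ≤ A ∧ A ≤ M ∧ 256 * 10 ^ 6 * M ^ 4 ≤ n * A ^ 3 ∧
      635 * ((n : ℝ) ^ (2 / 3 : ℝ) * (M : ℝ) ^ (1 / 3 : ℝ)) ≤ (n : ℝ) * A / M := by
  have hM0 : (0 : ℝ) < M := by exact_mod_cast hM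
  have hn0 : (0 : ℝ) < n := by
    have : 0 < n := lt_of_lt_of_le (by positivity) hn
    exact_mod_cast this
  have hnR : (10 : ℝ) ^ 9 * M ≤ n := by exact_mod_cast hn
  obtain ⟨r, hr⟩ : ∃ r : ℝ, r = (M : ℝ) ^ 4 / n := ⟨_, rfl⟩
  have hr0 : 0 < r := by rw [hr]; positivity
  obtain ⟨s, hs⟩ : ∃ s : ℝ, s = r ^ (1 / 3 : ℝ) := ⟨_, rfl⟩
  have hs0 : 0 < s := by rw [hs]; exact Real.rpow_pos_of_pos hr0 _
  have hs3 : s ^ 3 = r := by
    rw [hs, ← Real.rpow_natCast, ← Real.rpow_mul hr0.le]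
    norm_num
  have hnr : (n : ℝ) * r = (M : ℝ) ^ 4 := by
    rw [hr]; field_simp
  refine ⟨⌈635 * s⌉₊, ?_, ?_, ?_, ?_⟩
  · exact Nat.one_le_iff_ne_zero.2 (Nat.pos_iff_ne_zero.1 (Nat.ceil_pos.2 (by positivity)))
  · refine Nat.ceil_le.2 ?_
    have h1 : (10 : ℝ) ^ 9 * s ^ 3 ≤ (M : ℝ) ^ 3 := by
      rw [hs3]
      have h2 : (10 : ℝ) ^ 9 * M * r ≤ (M : ℝ) ^ 4 := by
        rw [← hnr]
        exact mul_le_mul_of_nonneg_right hnR hr0.le
      have h3 : (M : ℝ) * ((10 : ℝ) ^ 9 * r) ≤ M * (M : ℝ) ^ 3 := by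
        calc (M : ℝ) * ((10 : ℝ) ^ 9 * r) = (10 : ℝ) ^ 9 * M * r := by ring
          _ ≤ (M : ℝ) ^ 4 := h2
          _ = M * (M : ℝ) ^ 3 := by ring
      exact le_of_mul_le_mul_left h3 hM0
    have h4 : (1000 * s) ^ 3 ≤ (M : ℝ) ^ 3 := by
      calc (1000 * s) ^ 3 = (10 : ℝ) ^ 9 * s ^ 3 := by ring
        _ ≤ (M : ℝ) ^ 3 := h1
    have h5 : 1000 * s ≤ M := le_of_pow_le_pow_left₀ (by norm_num) hM0.le h4
    linarith
  · have h1 : 635 * s ≤ (⌈635 * s⌉₊ : ℝ) := Nat.le_ceil _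
    have h2 : (635 * s) ^ 3 ≤ (⌈635 * s⌉₊ : ℝ) ^ 3 := pow_le_pow_left₀ (by positivity) h1 3
    have h3 : (256 * 10 ^ 6 * (M : ℝ) ^ 4) ≤ (n : ℝ) * (⌈635 * s⌉₊ : ℝ) ^ 3 := by
      calc (256 * 10 ^ 6 * (M : ℝ) ^ 4) ≤ 256047875 * (M : ℝ) ^ 4 := by
            have : (0 : ℝ) ≤ (M : ℝ) ^ 4 := by positivity
            linarith
        _ = (n : ℝ) * (635 * s) ^ 3 := by
            rw [mul_pow, hs3, ← hnr]; ring
        _ ≤ (n : ℝ) * (⌈635 * s⌉₊ : ℝ) ^ 3 := mul_le_mul_of_nonneg_left h2 hn0.le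
    exact_mod_cast h3
  · have h1 : 635 * s ≤ (⌈635 * s⌉₊ : ℝ) := Nat.le_ceil _
    have h2 : (n : ℝ) ^ (2 / 3 : ℝ) * (M : ℝ) ^ (1 / 3 : ℝ) = n * s / M := by
      rw [hs, hr, Real.div_rpow (by positivity) hn0.le]
      have e1 : ((M : ℝ) ^ 4) ^ (1 / 3 : ℝ) = (M : ℝ) ^ (1 / 3 : ℝ) * M := by
        rw [← Real.rpow_natCast, ← Real.rpow_mul hM0.le]
        nth_rewrite 3 [← Real.rpow_one (M : ℝ)]
        rw [← Real.rpow_add hM0]
        norm_num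
      have e2 : (n : ℝ) = (n : ℝ) ^ (2 / 3 : ℝ) * (n : ℝ) ^ (1 / 3 : ℝ) := by
        rw [← Real.rpow_add hn0]
        norm_num
      have e3 : (n : ℝ) ^ (1 / 3 : ℝ) ≠ 0 := (Real.rpow_pos_of_pos hn0 _).ne'
      rw [e1]
      nth_rewrite 2 [e2]
      field_simp
    rw [h2]
    calc 635 * ((n : ℝ) * s / M) = (n : ℝ) * (635 * s) / M := by ring
      _ ≤ (n : ℝ) * (⌈635 * s⌉₊ : ℝ) / M := by gcongr

/-- `J.card ≥ m / 2`. -/
private lemma expq_J {m M : ℕ} (hm : m ≤ M) :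
    (m : ℝ) / 2 ≤ (((Finset.Icc 1 M).filter fun x => m < 2 * x ∧ x ≤ m).card : ℝ) := by
  have h1 : Finset.Ioc (m / 2) m ⊆ (Finset.Icc 1 M).filter fun x => m < 2 * x ∧ x ≤ m := by
    intro x hx
    rw [Finset.mem_Ioc] at hx
    rw [Finset.mem_filter, Finset.mem_Icc]
    omega
  have h2 := Finset.card_le_card h1
  rw [Nat.card_Ioc] at h2
  have h3 : m ≤ 2 * ((Finset.Icc 1 M).filter fun x => m < 2 * x ∧ x ≤ m).card := by omega
  have h4 : (m : ℝ) ≤ 2 * (((Finset.Icc 1 M).filter fun x => m < 2 * x ∧ x ≤ m).card : ℝ) := by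
    exact_mod_cast h3
  linarith

/-- One term. -/
private lemma expq_term {n M m : ℕ} (hM : 1 ≤ M) (hm : m ≤ M) :
    (((Fintype.piFinset fun _ : Fin n => Finset.Icc 1 M).filter fun μ =>
      ((Finset.univ.filter fun i => m < 2 * μ i ∧ μ i ≤ m).card : ℝ) <
        (n : ℝ) * m / (4 * M)).card : ℝ) ≤
      Real.exp (-((n : ℝ) * m / (14 * M))) * (M : ℝ) ^ n := by
  have hM0 : (0 : ℝ) < M := by exact_mod_cast hM
  obtain ⟨J, hJ⟩ : ∃ J : Finset ℕ, J = (Finset.Icc 1 M).filter fun x => m < 2 * x ∧ x ≤ m :=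
    ⟨_, rfl⟩
  have hJs : J ⊆ Finset.Icc 1 M := by rw [hJ]; exact Finset.filter_subset _ _
  have hJc : (m : ℝ) / 2 ≤ (J.card : ℝ) := by rw [hJ]; exact expq_J hm
  have hJM : (J.card : ℝ) ≤ M := by
    have := Finset.card_le_card hJs
    rw [Nat.card_Icc] at this
    have h2 : J.card ≤ M := by omega
    exact_mod_cast h2
  have h0 := thin_q (n := n) (M := M) J hJs ((n : ℝ) * m / (4 * M))
  have h1 : (((Fintype.piFinset fun _ : Fin n => Finset.Icc 1 M).filter fun μ =>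
      ((Finset.univ.filter fun i => m < 2 * μ i ∧ μ i ≤ m).card : ℝ) <
        (n : ℝ) * m / (4 * M)).card : ℝ) ≤
      (((Fintype.piFinset fun _ : Fin n => Finset.Icc 1 M).filter fun μ =>
      ((Finset.univ.filter fun i => μ i ∈ J).card : ℝ) < (n : ℝ) * m / (4 * M)).card : ℝ) := by
    have h2 : ((Fintype.piFinset fun _ : Fin n => Finset.Icc 1 M).filter fun μ =>
      ((Finset.univ.filter fun i => m < 2 * μ i ∧ μ i ≤ m).card : ℝ) <
        (n : ℝ) * m / (4 * M)) ⊆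
      ((Fintype.piFinset fun _ : Fin n => Finset.Icc 1 M).filter fun μ =>
      ((Finset.univ.filter fun i => μ i ∈ J).card : ℝ) < (n : ℝ) * m / (4 * M)) := by
      intro μ hμ
      rw [Finset.mem_filter] at hμ ⊢
      refine ⟨hμ.1, lt_of_le_of_lt ?_ hμ.2⟩
      have h3 : (Finset.univ.filter fun i => μ i ∈ J) ⊆
          (Finset.univ.filter fun i => m < 2 * μ i ∧ μ i ≤ m) := by
        intro i hi
        rw [Finset.mem_filter] at hi ⊢
        rw [hJ, Finset.mem_filter] at hi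
        exact ⟨Finset.mem_univ _, hi.2.2⟩
      exact_mod_cast Finset.card_le_card h3
    exact_mod_cast Finset.card_le_card h2
  refine h1.trans (h0.trans ?_)
  have h3 : (0 : ℝ) ≤ (M : ℝ) - (J.card : ℝ) / 2 := by linarith
  have h4 : (M : ℝ) - (J.card : ℝ) / 2 ≤ M * Real.exp (-((m : ℝ) / (4 * M))) := by
    have h5 : -((m : ℝ) / (4 * M)) + 1 ≤ Real.exp (-((m : ℝ) / (4 * M))) := Real.add_one_le_exp _
    have h6 : (M : ℝ) * (-((m : ℝ) / (4 * M)) + 1) ≤ M * Real.exp (-((m : ℝ) / (4 * M))) :=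
      mul_le_mul_of_nonneg_left h5 hM0.le
    have h7 : (M : ℝ) * (-((m : ℝ) / (4 * M)) + 1) = M - (m : ℝ) / 4 := by
      field_simp
      ring
    linarith
  have h5 : ((M : ℝ) - (J.card : ℝ) / 2) ^ n ≤
      (M : ℝ) ^ n * Real.exp (-((n : ℝ) * m / (4 * M))) := by
    refine (pow_le_pow_left₀ h3 h4 n).trans (le_of_eq ?_)
    rw [mul_pow, ← Real.exp_nat_mul]
    congr 2
    ring
  have h6 : (2 : ℝ) ^ ((n : ℝ) * m / (4 * M)) =
      Real.exp (Real.log 2 * ((n : ℝ) * m / (4 * M))) :=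
    Real.rpow_def_of_pos (by norm_num) _
  have hlog : Real.log 2 < 0.6931471808 := Real.log_two_lt_d9
  calc (2 : ℝ) ^ ((n : ℝ) * m / (4 * M)) * ((M : ℝ) - (J.card : ℝ) / 2) ^ n
      ≤ Real.exp (Real.log 2 * ((n : ℝ) * m / (4 * M))) *
        ((M : ℝ) ^ n * Real.exp (-((n : ℝ) * m / (4 * M)))) := by
        rw [h6]
        exact mul_le_mul_of_nonneg_left h5 (Real.exp_pos _).le
    _ = Real.exp (Real.log 2 * ((n : ℝ) * m / (4 * M)) + -((n : ℝ) * m / (4 * M))) *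
        (M : ℝ) ^ n := by
        rw [Real.exp_add]; ring
    _ ≤ Real.exp (-((n : ℝ) * m / (14 * M))) * (M : ℝ) ^ n := by
        refine mul_le_mul_of_nonneg_right (Real.exp_le_exp.2 ?_) (by positivity)
        have hx : 0 ≤ (n : ℝ) * m / M := by positivity
        have e1 : (n : ℝ) * m / (4 * M) = (n : ℝ) * m / M / 4 := by field_simp
        have e2 : (n : ℝ) * m / (14 * M) = (n : ℝ) * m / M / 14 := by field_simp
        rw [e1, e2]
        nlinarith [mul_le_mul_of_nonneg_right hlog.le hx]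

/-- UQ9. `A = ⌈635 (M ^ 4 / n) ^ (1 / 3)⌉`: `256 * 10 ^ 6 M ^ 4 ≤ n A ^ 3`
(`635 ^ 3 = 256047875`), `1 ≤ A ≤ M`. If `∃ d, Sp μ d` then by `crit_q` there is an `m ∈ [A, M]` with
`4 M T < n m`; `thin_q` with `J = {x ∈ Icc 1 M | m < 2 x ∧ x ≤ m}`, `J.card ≥ m / 2`,
`θ = n m / (4 M)`: the proportion is at most
`2 ^ θ (1 - m / (4 M)) ^ n ≤ exp (θ log 2 - n m / (4 M)) ≤ exp (- n m / (14 M)) ≤ exp (- 45 X)`,
`X = n ^ (2 / 3) M ^ (1 / 3)` (`n A / M ≥ 635 X`). The sum over `m ≤ M`: `M ≤ exp M ≤ exp X`. -/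
theorem exp_q {n M : ℕ} (hM : 1 ≤ M) (hn : 10 ^ 9 * M ≤ n) :
    (({μ : Fin n → ℕ | (∀ i, 1 ≤ μ i ∧ μ i ≤ M) ∧ ∃ d, Sp μ d}.ncard : ℕ) : ℝ) ≤
      Real.exp (-((n : ℝ) ^ (2 / 3 : ℝ) * (M : ℝ) ^ (1 / 3 : ℝ))) * (M : ℝ) ^ n := by
  have hM0 : (0 : ℝ) < M := by exact_mod_cast hM
  have hn0 : (0 : ℝ) < n := by
    have : 0 < n := lt_of_lt_of_le (by positivity) hn
    exact_mod_cast this
  have hMn : (M : ℝ) ≤ n := by
    have : M ≤ n := le_trans (by omega) hn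
    exact_mod_cast this
  obtain ⟨A, hA1, hAM, hA3, hAX⟩ := expq_A hM hn
  obtain ⟨X, hX⟩ : ∃ X : ℝ, X = (n : ℝ) ^ (2 / 3 : ℝ) * (M : ℝ) ^ (1 / 3 : ℝ) := ⟨_, rfl⟩
  rw [← hX] at hAX ⊢
  have hMX : (M : ℝ) ≤ X := by
    rw [hX]
    calc (M : ℝ) = (M : ℝ) ^ (2 / 3 : ℝ) * (M : ℝ) ^ (1 / 3 : ℝ) := by
          rw [← Real.rpow_add hM0]; norm_num
      _ ≤ (n : ℝ) ^ (2 / 3 : ℝ) * (M : ℝ) ^ (1 / 3 : ℝ) :=
          mul_le_mul_of_nonneg_right (Real.rpow_le_rpow hM0.le hMn (by norm_num))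
            (Real.rpow_nonneg hM0.le _)
  have hsub : {μ : Fin n → ℕ | (∀ i, 1 ≤ μ i ∧ μ i ≤ M) ∧ ∃ d, Sp μ d} ⊆
      (((Finset.Icc A M).biUnion fun m =>
        (Fintype.piFinset fun _ : Fin n => Finset.Icc 1 M).filter fun μ =>
          ((Finset.univ.filter fun i => m < 2 * μ i ∧ μ i ≤ m).card : ℝ) <
            (n : ℝ) * m / (4 * M) : Finset (Fin n → ℕ)) : Set (Fin n → ℕ)) := by
    intro μ hμ
    obtain ⟨h1, d, hd⟩ := hμ
    rw [Finset.mem_coe, Finset.mem_biUnion]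
    by_contra hcon
    refine crit_q (μ := μ) hA1 hAM h1 hA3 ?_ d hd
    intro m hm1 hm2
    by_contra hlt
    refine hcon ⟨m, Finset.mem_Icc.2 ⟨hm1, hm2⟩, Finset.mem_filter.2 ⟨?_, ?_⟩⟩
    · exact Fintype.mem_piFinset.2 fun i => Finset.mem_Icc.2 (h1 i)
    · have h2 : 4 * M * (Finset.univ.filter fun i => m < 2 * μ i ∧ μ i ≤ m).card < n * m :=
        not_le.1 hlt
      have h3 : (4 : ℝ) * M * ((Finset.univ.filter fun i => m < 2 * μ i ∧ μ i ≤ m).card : ℝ) <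
          (n : ℝ) * m := by exact_mod_cast h2
      rw [lt_div_iff₀ (by positivity)]
      linarith
  have hcard : (({μ : Fin n → ℕ | (∀ i, 1 ≤ μ i ∧ μ i ≤ M) ∧ ∃ d, Sp μ d}.ncard : ℕ) : ℝ) ≤
      ∑ m ∈ Finset.Icc A M, (((Fintype.piFinset fun _ : Fin n => Finset.Icc 1 M).filter fun μ =>
          ((Finset.univ.filter fun i => m < 2 * μ i ∧ μ i ≤ m).card : ℝ) <
            (n : ℝ) * m / (4 * M)).card : ℝ) := by
    have h1 := Set.ncard_le_ncard hsub (Finset.finite_toSet _)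
    rw [Set.ncard_coe_finset] at h1
    have h2 := h1.trans Finset.card_biUnion_le
    exact_mod_cast h2
  have hterm : ∀ m ∈ Finset.Icc A M,
      (((Fintype.piFinset fun _ : Fin n => Finset.Icc 1 M).filter fun μ =>
          ((Finset.univ.filter fun i => m < 2 * μ i ∧ μ i ≤ m).card : ℝ) <
            (n : ℝ) * m / (4 * M)).card : ℝ) ≤ Real.exp (-(45 * X)) * (M : ℝ) ^ n := by
    intro m hm
    rw [Finset.mem_Icc] at hm
    refine (expq_term hM hm.2).trans ?_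
    refine mul_le_mul_of_nonneg_right (Real.exp_le_exp.2 ?_) (by positivity)
    have hmA : (A : ℝ) ≤ m := by exact_mod_cast hm.1
    have h1 : (n : ℝ) * A / M ≤ (n : ℝ) * m / M := by gcongr
    have e2 : (n : ℝ) * m / (14 * M) = (n : ℝ) * m / M / 14 := by field_simp
    have hX0 : 0 ≤ X := hM0.le.trans hMX
    rw [e2]
    linarith
  calc (({μ : Fin n → ℕ | (∀ i, 1 ≤ μ i ∧ μ i ≤ M) ∧ ∃ d, Sp μ d}.ncard : ℕ) : ℝ)
      ≤ ∑ m ∈ Finset.Icc A M, Real.exp (-(45 * X)) * (M : ℝ) ^ n :=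
        hcard.trans (Finset.sum_le_sum hterm)
    _ = ((Finset.Icc A M).card : ℝ) * (Real.exp (-(45 * X)) * (M : ℝ) ^ n) := by
        rw [Finset.sum_const, nsmul_eq_mul]
    _ ≤ Real.exp X * (Real.exp (-(45 * X)) * (M : ℝ) ^ n) := by
        refine mul_le_mul_of_nonneg_right ?_ (by positivity)
        have h1 : ((Finset.Icc A M).card : ℝ) ≤ M := by
          rw [Nat.card_Icc]
          have : M + 1 - A ≤ M := by omega
          exact_mod_cast this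
        have h2 : X + 1 ≤ Real.exp X := Real.add_one_le_exp X
        linarith
    _ = Real.exp (X + -(45 * X)) * (M : ℝ) ^ n := by
        rw [Real.exp_add]; ring
    _ ≤ Real.exp (-X) * (M : ℝ) ^ n := by
        refine mul_le_mul_of_nonneg_right (Real.exp_le_exp.2 ?_) (by positivity)
        have hX0 : 0 ≤ X := hM0.le.trans hMX
        linarith

end Pool.Agent.Lib.MP_6b2d39_agUq
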