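import Mathlib

set_option autoImplicit false

namespace Pool.Agent.Lib.MP_6b2d39_agUq

/-- UQ13 (typical `ν`, `n` points, `n ≤ 10 ^ 9 M`). `W ≤ (M ^ (9/8) + 256 M ^ 2 / n ^ 2) L`,
`L = log (n + 2) ^ 3 ≥ 1`; `M W / √S ≤ 4 W / √n`; `√W ≤ (M ^ (9/16) + 16 M / n) L`;
`M ^ (9/16) ≤ 10 ^ 5 M ^ (9/8) / √n` because `√n ≤ 10 ^ 4.5 √M`; `16 M / n ≤ 16 M ^ (9/8) / √n`. -/
theorem num_q {n M : ℕ} {S W : ℝ} (hn : 1 ≤ n) (hM : 1 ≤ M) (hnM : n ≤ 10 ^ 9 * M)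
    (hS1 : (n : ℝ) * (M : ℝ) ^ 2 ≤ 16 * S) (hS2 : S ≤ n * (M : ℝ) ^ 2)
    (hW : W = ((M : ℝ) ^ (9 / 8 : ℝ) + (M : ℝ) ^ 6 / S ^ 2) *
      Real.log (S / (M : ℝ) ^ 2 + 2) ^ 3) :
    M * W / √S + √W ≤
      10 ^ 6 * ((M : ℝ) ^ (1 / 8 : ℝ) / √(n : ℝ) + M / (n : ℝ) ^ (5 / 2 : ℝ)) *
        Real.log ((n : ℝ) + 2) ^ 3 * M := by
  have hm : (1 : ℝ) ≤ (M : ℝ) := by exact_mod_cast hM
  have hN : (1 : ℝ) ≤ (n : ℝ) := by exact_mod_cast hn
  have hNM : (n : ℝ) ≤ 10 ^ 9 * (M : ℝ) := by exact_mod_cast hnM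
  generalize (M : ℝ) = m at *
  generalize (n : ℝ) = N at *
  have hm0 : 0 < m := by linarith
  have hN0 : 0 < N := by linarith
  have hSpos : 0 < S := by
    have : 0 < N * m ^ 2 := by positivity
    linarith
  set s : ℝ := √N with hsdef
  have hs0 : 0 < s := Real.sqrt_pos.2 hN0
  have hss : s * s = N := Real.mul_self_sqrt hN0.le
  have hs1 : 1 ≤ s := by
    rw [hsdef]; exact Real.one_le_sqrt.2 hN
  have hsN : s ≤ N := by nlinarith
  have hA : m ^ (9 / 8 : ℝ) = m * m ^ (1 / 8 : ℝ) := by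
    have h1 : (9 / 8 : ℝ) = 1 + 1 / 8 := by norm_num
    rw [h1, Real.rpow_add hm0, Real.rpow_one]
  have hN52 : N ^ (5 / 2 : ℝ) = N ^ 2 * s := by
    have h1 : (5 / 2 : ℝ) = 2 + 1 / 2 := by norm_num
    rw [h1, Real.rpow_add hN0, hsdef, Real.sqrt_eq_rpow]
    congr 1
    exact Real.rpow_natCast N 2
  have hAa : m ^ (9 / 8 : ℝ) = m ^ (9 / 16 : ℝ) * m ^ (9 / 16 : ℝ) := by
    rw [← Real.rpow_add hm0]; norm_num
  have hmA : m ≤ m ^ (9 / 8 : ℝ) := by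
    calc m = m ^ (1 : ℝ) := (Real.rpow_one m).symm
      _ ≤ m ^ (9 / 8 : ℝ) := Real.rpow_le_rpow_of_exponent_le hm (by norm_num)
  have ha0 : 0 < m ^ (9 / 16 : ℝ) := Real.rpow_pos_of_pos hm0 _
  have hA0 : 0 < m ^ (9 / 8 : ℝ) := Real.rpow_pos_of_pos hm0 _
  have hfinal : (10 : ℝ) ^ 6 * (m ^ (1 / 8 : ℝ) / s + m / N ^ (5 / 2 : ℝ)) *
      Real.log (N + 2) ^ 3 * m =
      10 ^ 6 * (m ^ (9 / 8 : ℝ) / s + m ^ 2 / (N ^ 2 * s)) * Real.log (N + 2) ^ 3 := by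
    rw [hA, hN52]; ring
  rw [hfinal]
  generalize m ^ (9 / 8 : ℝ) = A at *
  generalize m ^ (9 / 16 : ℝ) = a at *
  set L : ℝ := Real.log (N + 2) ^ 3 with hL
  have hlog1 : 1 ≤ Real.log (N + 2) := by
    rw [Real.le_log_iff_exp_le (by linarith)]
    have := Real.exp_one_lt_d9
    linarith
  have hL1 : 1 ≤ L := one_le_pow₀ hlog1
  have hq0 : 0 ≤ S / m ^ 2 := by positivity
  have hl0 : 0 ≤ Real.log (S / m ^ 2 + 2) := Real.log_nonneg (by linarith)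
  have hl1 : Real.log (S / m ^ 2 + 2) ≤ Real.log (N + 2) := by
    apply Real.log_le_log (by linarith)
    have : S / m ^ 2 ≤ N := by
      rw [div_le_iff₀ (by positivity)]; exact hS2
    linarith
  have hL0 : Real.log (S / m ^ 2 + 2) ^ 3 ≤ L := pow_le_pow_left₀ hl0 hl1 3
  have hfrac : m ^ 6 / S ^ 2 ≤ 256 * m ^ 2 / N ^ 2 := by
    rw [div_le_div_iff₀ (by positivity) (by positivity)]
    have h1 : (N * m ^ 2) ^ 2 ≤ (16 * S) ^ 2 := pow_le_pow_left₀ (by positivity) hS1 2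
    have h2 : m ^ 2 * (N * m ^ 2) ^ 2 ≤ m ^ 2 * (16 * S) ^ 2 :=
      mul_le_mul_of_nonneg_left h1 (by positivity)
    nlinarith [h2]
  have hW0 : 0 ≤ W := by rw [hW]; positivity
  have hWle : W ≤ (A + 256 * m ^ 2 / N ^ 2) * L := by
    rw [hW]
    apply mul_le_mul _ hL0 (by positivity) (by positivity)
    linarith
  have hsS : s * m / 4 ≤ √S := by
    apply Real.le_sqrt_of_sq_le
    have : (s * m / 4) ^ 2 = N * m ^ 2 / 16 := by rw [← hss]; ring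
    rw [this]; linarith
  have h1 : m * W / √S ≤ 4 * W / s := by
    calc m * W / √S ≤ m * W / (s * m / 4) :=
          div_le_div_of_nonneg_left (by positivity) (by positivity) hsS
      _ = 4 * W / s := by field_simp
  have h2 : √W ≤ (a + 16 * m / N) * L := by
    apply Real.sqrt_le_iff.2
    refine ⟨by positivity, hWle.trans ?_⟩
    have e1 : ((a + 16 * m / N) * L) ^ 2 = (A + 256 * m ^ 2 / N ^ 2 + 2 * a * (16 * m / N)) *
        (L * L) := by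
      rw [hAa]; field_simp; ring
    rw [e1]
    apply mul_le_mul _ (by nlinarith) (by linarith) (by positivity)
    have : 0 ≤ 2 * a * (16 * m / N) := by positivity
    linarith
  have h3 : a ≤ 10 ^ 5 * A / s := by
    rw [le_div_iff₀ hs0]
    have h4 : s ≤ 10 ^ 5 * a := by
      rw [hsdef]
      apply Real.sqrt_le_iff.2
      refine ⟨by positivity, ?_⟩
      have : (10 ^ 5 * a) ^ 2 = 10 ^ 10 * A := by rw [hAa]; ring
      rw [this]; nlinarith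
    calc a * s ≤ a * (10 ^ 5 * a) := mul_le_mul_of_nonneg_left h4 ha0.le
      _ = 10 ^ 5 * A := by rw [hAa]; ring
  have h4 : 16 * m / N ≤ 16 * A / s := by
    apply div_le_div₀ (by positivity) (by linarith) hs0 hsN
  have h5 : 4 * W / s ≤ 4 * ((A + 256 * m ^ 2 / N ^ 2) * L) / s := by
    apply div_le_div_of_nonneg_right _ hs0.le
    linarith
  have h6 : (a + 16 * m / N) * L ≤ (10 ^ 5 * A / s + 16 * A / s) * L :=
    mul_le_mul_of_nonneg_right (by linarith) (by linarith)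
  have h7 : 4 * ((A + 256 * m ^ 2 / N ^ 2) * L) / s + (10 ^ 5 * A / s + 16 * A / s) * L =
      (100020 * (A / s) + 1024 * (m ^ 2 / (N ^ 2 * s))) * L := by
    field_simp; ring
  have h8 : (100020 * (A / s) + 1024 * (m ^ 2 / (N ^ 2 * s))) * L ≤
      10 ^ 6 * (A / s + m ^ 2 / (N ^ 2 * s)) * L := by
    apply mul_le_mul_of_nonneg_right _ (by linarith)
    have : 0 ≤ A / s := by positivity
    have : 0 ≤ m ^ 2 / (N ^ 2 * s) := by positivity
    nlinarith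
  linarith

end Pool.Agent.Lib.MP_6b2d39_agUq
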