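import Mathlib

set_option autoImplicit false

namespace Pool.Agent.Lib.MP_6b2d39_agUq

private theorem numR_log {x : ℝ} (hx : 3 ≤ x) : 1 ≤ Real.log x ^ 3 := by
  have h1 : 1 ≤ Real.log x := by
    rw [Real.le_log_iff_exp_le (by linarith)]
    have := Real.exp_one_lt_d9
    linarith
  exact one_le_pow₀ h1

private theorem numR_pow (n : ℕ) : ((n : ℝ) + 1) ^ 3 * (9 / 10 : ℝ) ^ n ≤ 18000 := by
  have h1 : (9 / 10 : ℝ) ≤ Real.exp (-(1 / 10)) := by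
    have := Real.add_one_le_exp (-(1 / 10) : ℝ)
    linarith
  have h2 : (9 / 10 : ℝ) ^ n ≤ Real.exp (-((n : ℝ) / 10)) := by
    calc (9 / 10 : ℝ) ^ n ≤ Real.exp (-(1 / 10)) ^ n := pow_le_pow_left₀ (by norm_num) h1 n
      _ = Real.exp (-((n : ℝ) / 10)) := by
        rw [← Real.exp_nat_mul]
        congr 1
        ring
  have hy : (0 : ℝ) ≤ ((n : ℝ) + 1) / 10 := by positivity
  have h3 : (((n : ℝ) + 1) / 10) ^ 3 ≤ 6 * Real.exp (((n : ℝ) + 1) / 10) := by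
    have h4 := Real.pow_div_factorial_le_exp (((n : ℝ) + 1) / 10) hy 3
    have h5 : ((Nat.factorial 3 : ℕ) : ℝ) = 6 := by norm_num [Nat.factorial]
    rw [h5, div_le_iff₀ (by norm_num)] at h4
    linarith
  have h6 : Real.exp (((n : ℝ) + 1) / 10) * Real.exp (-((n : ℝ) / 10)) ≤ 3 := by
    rw [← Real.exp_add]
    have h7 : ((n : ℝ) + 1) / 10 + -((n : ℝ) / 10) = 1 / 10 := by ring
    rw [h7]
    have h8 : Real.exp (1 / 10) ≤ Real.exp 1 := Real.exp_le_exp.2 (by norm_num)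
    have := Real.exp_one_lt_d9
    linarith
  calc ((n : ℝ) + 1) ^ 3 * (9 / 10 : ℝ) ^ n
      = 1000 * (((n : ℝ) + 1) / 10) ^ 3 * (9 / 10 : ℝ) ^ n := by ring
    _ ≤ 1000 * (6 * Real.exp (((n : ℝ) + 1) / 10)) * Real.exp (-((n : ℝ) / 10)) := by
        apply mul_le_mul _ h2 (by positivity) (by positivity)
        linarith
    _ = 6000 * (Real.exp (((n : ℝ) + 1) / 10) * Real.exp (-((n : ℝ) / 10))) := by ring
    _ ≤ 18000 := by linarith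

/-- UQ14. `(9 / 10) ^ n n ^ 3` is bounded, `log (n + 3) ≥ 1`. -/
theorem num_atyp : ∃ C : ℝ, 1 ≤ C ∧ ∀ n M : ℕ, 1 ≤ M →
    4 * (M : ℝ) ^ 2 * √((n : ℝ) + 1) * ((9 / 10 : ℝ) ^ n * (M : ℝ) ^ n) ≤
      C * ((M : ℝ) ^ (1 / 8 : ℝ) / √((n : ℝ) + 1) + M / ((n : ℝ) + 1) ^ (5 / 2 : ℝ)) *
        Real.log ((n : ℝ) + 1 + 2) ^ 3 * (M : ℝ) ^ (n + 1) := by
  refine ⟨72000, by norm_num, fun n M hM => ?_⟩
  have hM1 : (1 : ℝ) ≤ M := by exact_mod_cast hM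
  have hn : (0 : ℝ) < (n : ℝ) + 1 := by positivity
  have hlog : 1 ≤ Real.log ((n : ℝ) + 1 + 2) ^ 3 := by
    apply numR_log
    have : (0 : ℝ) ≤ n := by positivity
    linarith
  have hs : √((n : ℝ) + 1) * ((n : ℝ) + 1) ^ (5 / 2 : ℝ) = ((n : ℝ) + 1) ^ 3 := by
    rw [Real.sqrt_eq_rpow, ← Real.rpow_add hn, ← Real.rpow_natCast]
    norm_num
  have hp : 0 < ((n : ℝ) + 1) ^ (5 / 2 : ℝ) := Real.rpow_pos_of_pos hn _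
  have h1 : 4 * √((n : ℝ) + 1) * (9 / 10 : ℝ) ^ n ≤ 72000 / ((n : ℝ) + 1) ^ (5 / 2 : ℝ) := by
    rw [le_div_iff₀ hp]
    have h2 := numR_pow n
    calc 4 * √((n : ℝ) + 1) * (9 / 10 : ℝ) ^ n * ((n : ℝ) + 1) ^ (5 / 2 : ℝ)
        = 4 * ((√((n : ℝ) + 1) * ((n : ℝ) + 1) ^ (5 / 2 : ℝ)) * (9 / 10 : ℝ) ^ n) := by ring
      _ = 4 * (((n : ℝ) + 1) ^ 3 * (9 / 10 : ℝ) ^ n) := by rw [hs]
      _ ≤ 72000 := by linarith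
  have h3 : (0 : ℝ) ≤ (M : ℝ) ^ (1 / 8 : ℝ) / √((n : ℝ) + 1) := by positivity
  have hMp : (0 : ℝ) < (M : ℝ) ^ (n + 2) := by positivity
  calc 4 * (M : ℝ) ^ 2 * √((n : ℝ) + 1) * ((9 / 10 : ℝ) ^ n * (M : ℝ) ^ n)
      = (4 * √((n : ℝ) + 1) * (9 / 10 : ℝ) ^ n) * (M : ℝ) ^ (n + 2) := by ring
    _ ≤ (72000 / ((n : ℝ) + 1) ^ (5 / 2 : ℝ)) * (M : ℝ) ^ (n + 2) :=
        mul_le_mul_of_nonneg_right h1 hMp.le
    _ = 72000 * (M / ((n : ℝ) + 1) ^ (5 / 2 : ℝ)) * 1 * (M : ℝ) ^ (n + 1) := by ring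
    _ ≤ 72000 * ((M : ℝ) ^ (1 / 8 : ℝ) / √((n : ℝ) + 1) + M / ((n : ℝ) + 1) ^ (5 / 2 : ℝ)) *
        Real.log ((n : ℝ) + 1 + 2) ^ 3 * (M : ℝ) ^ (n + 1) := by
        apply mul_le_mul_of_nonneg_right _ (by positivity)
        apply mul_le_mul _ hlog zero_le_one (by positivity)
        apply mul_le_mul_of_nonneg_left _ (by norm_num)
        linarith

/-- UQ15. `M ≤ n`, `exp (- X) ≤ exp (- n ^ (2 / 3))`, `n ^ 3 exp (- n ^ (2 / 3))` is bounded. -/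
theorem num_exp : ∃ C : ℝ, 1 ≤ C ∧ ∀ n M : ℕ, 1 ≤ M → M ≤ n →
    4 * M * √(n : ℝ) * (Real.exp (-((n : ℝ) ^ (2 / 3 : ℝ) * (M : ℝ) ^ (1 / 3 : ℝ))) *
      (M : ℝ) ^ n) ≤
      C * ((M : ℝ) ^ (1 / 8 : ℝ) / √(n : ℝ) + M / (n : ℝ) ^ (5 / 2 : ℝ)) *
        Real.log ((n : ℝ) + 2) ^ 3 * (M : ℝ) ^ n := by
  refine ⟨480, by norm_num, fun n M hM hMn => ?_⟩
  have hM1 : (1 : ℝ) ≤ M := by exact_mod_cast hM
  have hn1 : (1 : ℝ) ≤ n := by exact_mod_cast hM.trans hMn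
  have hn : (0 : ℝ) < n := by linarith
  have hlog : 1 ≤ Real.log ((n : ℝ) + 2) ^ 3 := numR_log (by linarith)
  have hx1 : 1 ≤ (n : ℝ) ^ (2 / 3 : ℝ) := Real.one_le_rpow hn1 (by norm_num)
  have hs : √(n : ℝ) * (n : ℝ) ^ (5 / 2 : ℝ) = (n : ℝ) ^ (3 : ℝ) := by
    rw [Real.sqrt_eq_rpow, ← Real.rpow_add hn]
    norm_num
  have hp : 0 < (n : ℝ) ^ (5 / 2 : ℝ) := Real.rpow_pos_of_pos hn _
  have h0 : Real.exp (-((n : ℝ) ^ (2 / 3 : ℝ) * (M : ℝ) ^ (1 / 3 : ℝ))) ≤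
      Real.exp (-((n : ℝ) ^ (2 / 3 : ℝ))) := by
    apply Real.exp_le_exp.2
    have h1 : 1 ≤ (M : ℝ) ^ (1 / 3 : ℝ) := Real.one_le_rpow hM1 (by norm_num)
    nlinarith
  have h2 : (n : ℝ) ^ (3 : ℝ) ≤ 120 * Real.exp ((n : ℝ) ^ (2 / 3 : ℝ)) := by
    have h3 := Real.pow_div_factorial_le_exp ((n : ℝ) ^ (2 / 3 : ℝ)) (by linarith) 5
    have h4 : ((Nat.factorial 5 : ℕ) : ℝ) = 120 := by norm_num [Nat.factorial]
    rw [h4, div_le_iff₀ (by norm_num)] at h3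
    have h5 : (n : ℝ) ^ (3 : ℝ) ≤ ((n : ℝ) ^ (2 / 3 : ℝ)) ^ 5 := by
      rw [← Real.rpow_natCast, ← Real.rpow_mul hn.le]
      apply Real.rpow_le_rpow_of_exponent_le hn1
      norm_num
    linarith
  have h6 : (n : ℝ) ^ (3 : ℝ) * Real.exp (-((n : ℝ) ^ (2 / 3 : ℝ))) ≤ 120 := by
    rw [Real.exp_neg, ← div_eq_mul_inv, div_le_iff₀ (Real.exp_pos _)]
    exact h2
  have h7 : 4 * √(n : ℝ) * Real.exp (-((n : ℝ) ^ (2 / 3 : ℝ) * (M : ℝ) ^ (1 / 3 : ℝ))) ≤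
      480 / (n : ℝ) ^ (5 / 2 : ℝ) := by
    rw [le_div_iff₀ hp]
    calc 4 * √(n : ℝ) * Real.exp (-((n : ℝ) ^ (2 / 3 : ℝ) * (M : ℝ) ^ (1 / 3 : ℝ))) *
          (n : ℝ) ^ (5 / 2 : ℝ)
        = 4 * ((√(n : ℝ) * (n : ℝ) ^ (5 / 2 : ℝ)) *
            Real.exp (-((n : ℝ) ^ (2 / 3 : ℝ) * (M : ℝ) ^ (1 / 3 : ℝ)))) := by ring
      _ = 4 * ((n : ℝ) ^ (3 : ℝ) *
            Real.exp (-((n : ℝ) ^ (2 / 3 : ℝ) * (M : ℝ) ^ (1 / 3 : ℝ)))) := by rw [hs]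
      _ ≤ 4 * ((n : ℝ) ^ (3 : ℝ) * Real.exp (-((n : ℝ) ^ (2 / 3 : ℝ)))) := by
          apply mul_le_mul_of_nonneg_left _ (by norm_num)
          exact mul_le_mul_of_nonneg_left h0 (by positivity)
      _ ≤ 480 := by linarith
  have h3 : (0 : ℝ) ≤ (M : ℝ) ^ (1 / 8 : ℝ) / √(n : ℝ) := by positivity
  have hMp : (0 : ℝ) < (M : ℝ) * (M : ℝ) ^ n := by positivity
  calc 4 * M * √(n : ℝ) * (Real.exp (-((n : ℝ) ^ (2 / 3 : ℝ) * (M : ℝ) ^ (1 / 3 : ℝ))) *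
        (M : ℝ) ^ n)
      = (4 * √(n : ℝ) * Real.exp (-((n : ℝ) ^ (2 / 3 : ℝ) * (M : ℝ) ^ (1 / 3 : ℝ)))) *
          ((M : ℝ) * (M : ℝ) ^ n) := by ring
    _ ≤ (480 / (n : ℝ) ^ (5 / 2 : ℝ)) * ((M : ℝ) * (M : ℝ) ^ n) :=
        mul_le_mul_of_nonneg_right h7 hMp.le
    _ = 480 * (M / (n : ℝ) ^ (5 / 2 : ℝ)) * 1 * (M : ℝ) ^ n := by ring
    _ ≤ 480 * ((M : ℝ) ^ (1 / 8 : ℝ) / √(n : ℝ) + M / (n : ℝ) ^ (5 / 2 : ℝ)) *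
        Real.log ((n : ℝ) + 2) ^ 3 * (M : ℝ) ^ n := by
        apply mul_le_mul_of_nonneg_right _ (by positivity)
        apply mul_le_mul _ hlog zero_le_one (by positivity)
        apply mul_le_mul_of_nonneg_left _ (by norm_num)
        linarith

end Pool.Agent.Lib.MP_6b2d39_agUq
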