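import Pool.Agent.Lib.MP_6b2d39_agUq.PairsQ

set_option autoImplicit false

namespace Pool.Agent.Lib.MP_6b2d39_agUq

open Pool.Agent.Lib.MP_6b2d39_agCr

/-- UQ11 (Fubini). `q = (Fin.cons m ν, d) ↦ (ν, (m, d))` (`Fin.tail`); the pairs with tail `ν ∈ G`
are counted by `h1`, those with `ν` in the box but not in `G` by `pairs_q` with
`B` = all `Fin.cons m ν` (at most `M` times the number of these `ν`). -/
theorem split_q {n M : ℕ} (hM : 1 ≤ M) (G : Finset (Fin n → ℕ)) (c : ℝ)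
    (hG : G ⊆ Fintype.piFinset fun _ : Fin n => Finset.Icc 1 M)
    (h1 : ∀ ν ∈ G, {p : ℕ × ℕ | p.1 ≤ M ∧ Sp (Fin.cons p.1 ν : Fin (n + 1) → ℕ) p.2}.Finite ∧
      (({p : ℕ × ℕ | p.1 ≤ M ∧ Sp (Fin.cons p.1 ν : Fin (n + 1) → ℕ) p.2}.ncard : ℕ) : ℝ) ≤ c)
    (hc : 0 ≤ c) :
    {q : (Fin (n + 1) → ℕ) × ℕ | (∀ i, 1 ≤ q.1 i ∧ q.1 i ≤ M) ∧ Sp q.1 q.2}.Finite ∧
    (({q : (Fin (n + 1) → ℕ) × ℕ | (∀ i, 1 ≤ q.1 i ∧ q.1 i ≤ M) ∧ Sp q.1 q.2}.ncard : ℕ) : ℝ) ≤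
      c * (M : ℝ) ^ n + 4 * (M : ℝ) ^ 2 * √((n : ℝ) + 1) *
        (((Fintype.piFinset fun _ : Fin n => Finset.Icc 1 M) \ G).card : ℝ) := by
  classical
  obtain ⟨B, hBdef⟩ : ∃ B : Finset (Fin (n + 1) → ℕ), B =
      ((Finset.Icc 1 M) ×ˢ ((Fintype.piFinset fun _ : Fin n => Finset.Icc 1 M) \ G)).image
        (fun p : ℕ × (Fin n → ℕ) => (Fin.cons p.1 p.2 : Fin (n + 1) → ℕ)) := ⟨_, rfl⟩
  have hBcard : B.card ≤ M * ((Fintype.piFinset fun _ : Fin n => Finset.Icc 1 M) \ G).card := by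
    rw [hBdef]
    refine Finset.card_image_le.trans ?_
    rw [Finset.card_product, Nat.card_Icc, Nat.add_sub_cancel]
  have hBle : ∀ μ ∈ B, ∀ i, μ i ≤ M := by
    intro μ hμ i
    rw [hBdef, Finset.mem_image] at hμ
    obtain ⟨⟨m, ν⟩, hp, rfl⟩ := hμ
    rw [Finset.mem_product, Finset.mem_Icc, Finset.mem_sdiff, Fintype.mem_piFinset] at hp
    obtain ⟨hm, hν, -⟩ := hp
    refine Fin.cases ?_ (fun j => ?_) i
    · rw [Fin.cons_zero]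
      exact hm.2
    · rw [Fin.cons_succ]
      exact (Finset.mem_Icc.1 (hν j)).2
  obtain ⟨f2, n2⟩ := pairs_q (n := n + 1) (by omega) hM B hBle
  obtain ⟨T, hT⟩ : ∃ T : (Fin n → ℕ) → Set ((Fin (n + 1) → ℕ) × ℕ), T = fun ν =>
      (fun p : ℕ × ℕ => ((Fin.cons p.1 ν : Fin (n + 1) → ℕ), p.2)) ''
        {p : ℕ × ℕ | p.1 ≤ M ∧ Sp (Fin.cons p.1 ν : Fin (n + 1) → ℕ) p.2} := ⟨_, rfl⟩
  have hsub : {q : (Fin (n + 1) → ℕ) × ℕ | (∀ i, 1 ≤ q.1 i ∧ q.1 i ≤ M) ∧ Sp q.1 q.2} ⊆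
      (⋃ ν ∈ G, T ν) ∪ {q : (Fin (n + 1) → ℕ) × ℕ | q.1 ∈ B ∧ Sp q.1 q.2} := by
    rintro ⟨μ, d⟩ ⟨h2, h3⟩
    dsimp only at h2 h3
    have hcons : (Fin.cons (μ 0) (Fin.tail μ) : Fin (n + 1) → ℕ) = μ := Fin.cons_self_tail μ
    by_cases hg : Fin.tail μ ∈ G
    · left
      rw [Set.mem_iUnion₂]
      refine ⟨Fin.tail μ, hg, ?_⟩
      rw [hT]
      refine ⟨(μ 0, d), ⟨(h2 0).2, ?_⟩, ?_⟩
      · dsimp only
        rw [hcons]
        exact h3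
      · dsimp only
        rw [hcons]
    · right
      refine ⟨?_, h3⟩
      dsimp only
      rw [hBdef, Finset.mem_image]
      refine ⟨(μ 0, Fin.tail μ), ?_, hcons⟩
      rw [Finset.mem_product, Finset.mem_Icc, Finset.mem_sdiff, Fintype.mem_piFinset]
      exact ⟨h2 0, fun j => Finset.mem_Icc.2 (h2 j.succ), hg⟩
  have hTf : ∀ ν ∈ G, (T ν).Finite := fun ν hν => by
    rw [hT]
    exact (h1 ν hν).1.image _
  have f1 : (⋃ ν ∈ G, T ν).Finite := G.finite_toSet.biUnion hTf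
  have fU := f1.union f2
  refine ⟨fU.subset hsub, ?_⟩
  have e1 := Set.ncard_le_ncard hsub fU
  have e2 := Set.ncard_union_le (⋃ ν ∈ G, T ν)
    {q : (Fin (n + 1) → ℕ) × ℕ | q.1 ∈ B ∧ Sp q.1 q.2}
  have e3 := Finset.set_ncard_biUnion_le G T
  have e4 : ((∑ ν ∈ G, (T ν).ncard : ℕ) : ℝ) ≤ c * (M : ℝ) ^ n := by
    rw [Nat.cast_sum]
    have g1 : ∀ ν ∈ G, (((T ν).ncard : ℕ) : ℝ) ≤ c := fun ν hν => by
      refine le_trans ?_ (h1 ν hν).2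
      rw [hT]
      exact_mod_cast Set.ncard_image_le (h1 ν hν).1
    refine (Finset.sum_le_sum g1).trans ?_
    rw [Finset.sum_const, nsmul_eq_mul, mul_comm]
    refine mul_le_mul_of_nonneg_left ?_ hc
    have g2 : G.card ≤ M ^ n := by
      refine (Finset.card_le_card hG).trans ?_
      rw [Fintype.card_piFinset, Finset.prod_const, Finset.card_univ, Fintype.card_fin,
        Nat.card_Icc, Nat.add_sub_cancel]
    exact_mod_cast g2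
  have e5 : (({q : (Fin (n + 1) → ℕ) × ℕ | q.1 ∈ B ∧ Sp q.1 q.2}.ncard : ℕ) : ℝ) ≤
      4 * (M : ℝ) ^ 2 * √((n : ℝ) + 1) *
        (((Fintype.piFinset fun _ : Fin n => Finset.Icc 1 M) \ G).card : ℝ) := by
    refine n2.trans ?_
    have g1 : (B.card : ℝ) ≤
        M * (((Fintype.piFinset fun _ : Fin n => Finset.Icc 1 M) \ G).card : ℝ) := by
      exact_mod_cast hBcard
    have g2 : (((n + 1 : ℕ) : ℕ) : ℝ) = (n : ℝ) + 1 := by push_cast; ring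
    rw [g2]
    have g3 : 0 ≤ 4 * (M : ℝ) * √((n : ℝ) + 1) := by positivity
    refine (mul_le_mul_of_nonneg_left g1 g3).trans (le_of_eq ?_)
    ring
  have e6 : (({q : (Fin (n + 1) → ℕ) × ℕ |
      (∀ i, 1 ≤ q.1 i ∧ q.1 i ≤ M) ∧ Sp q.1 q.2}.ncard : ℕ) : ℝ) ≤
      ((∑ ν ∈ G, (T ν).ncard : ℕ) : ℝ) +
        (({q : (Fin (n + 1) → ℕ) × ℕ | q.1 ∈ B ∧ Sp q.1 q.2}.ncard : ℕ) : ℝ) := by
    have := e1.trans (e2.trans (Nat.add_le_add_right e3 _))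
    exact_mod_cast this
  linarith

end Pool.Agent.Lib.MP_6b2d39_agUq
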