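import Pool.Agent.Lib.MP_6b2d39_agUq.OneQ
import Pool.Agent.Lib.MP_6b2d39_agUq.ExpQ
import Pool.Agent.Lib.MP_6b2d39_agUq.SplitQ
import Pool.Agent.Lib.MP_6b2d39_agUq.AtypQ
import Pool.Agent.Lib.MP_6b2d39_agUq.NumQ
import Pool.Agent.Lib.MP_6b2d39_agUq.NumR

set_option autoImplicit false

namespace Pool.Agent.Lib.MP_6b2d39_agUq

open Pool.Agent.Lib.MP_6b2d39_agCr

private lemma box_log {x : ℝ} (hx : 1 ≤ x) : 1 ≤ Real.log (x + 2) ^ 3 := by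
  have h1 : 1 ≤ Real.log (x + 2) := by
    rw [Real.le_log_iff_exp_le (by linarith)]
    have := Real.exp_one_lt_d9
    linarith
  exact one_le_pow₀ h1

private lemma box_mem {n M : ℕ} (μ : Fin n → ℕ) :
    μ ∈ (Fintype.piFinset fun _ : Fin n => Finset.Icc 1 M) ↔ ∀ i, 1 ≤ μ i ∧ μ i ≤ M := by
  rw [Fintype.mem_piFinset]
  exact forall_congr' fun i => Finset.mem_Icc

private lemma box_card {n M : ℕ} :
    ((Fintype.piFinset fun _ : Fin n => Finset.Icc 1 M).card : ℝ) = (M : ℝ) ^ n := by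
  rw [Fintype.card_piFinset, Finset.prod_const, Finset.card_univ, Fintype.card_fin,
    Nat.card_Icc, Nat.add_sub_cancel]
  push_cast
  rfl

/-- all pairs over the box -/
private lemma box_pairs {n M : ℕ} (hn : 1 ≤ n) (hM : 1 ≤ M) :
    {q : (Fin n → ℕ) × ℕ | (∀ i, 1 ≤ q.1 i ∧ q.1 i ≤ M) ∧ Sp q.1 q.2}.Finite ∧
    (({q : (Fin n → ℕ) × ℕ | (∀ i, 1 ≤ q.1 i ∧ q.1 i ≤ M) ∧ Sp q.1 q.2}.ncard : ℕ) : ℝ) ≤
      4 * M * √(n : ℝ) * (M : ℝ) ^ n := by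
  have h := pairs_q hn hM (Fintype.piFinset fun _ : Fin n => Finset.Icc 1 M)
    (fun μ hμ i => ((box_mem μ).1 hμ i).2)
  have e : {q : (Fin n → ℕ) × ℕ | q.1 ∈ (Fintype.piFinset fun _ : Fin n => Finset.Icc 1 M) ∧
      Sp q.1 q.2} = {q : (Fin n → ℕ) × ℕ | (∀ i, 1 ≤ q.1 i ∧ q.1 i ≤ M) ∧ Sp q.1 q.2} := by
    ext q
    rw [Set.mem_setOf_eq, Set.mem_setOf_eq, box_mem]
  rw [e, box_card] at h
  exact h

/-- few multiplicities are special when `n` is large -/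
private lemma box_large {n M : ℕ} (hM : 1 ≤ M) (hn : 10 ^ 9 * M ≤ n) :
    (({q : (Fin n → ℕ) × ℕ | (∀ i, 1 ≤ q.1 i ∧ q.1 i ≤ M) ∧ Sp q.1 q.2}.ncard : ℕ) : ℝ) ≤
      4 * M * √(n : ℝ) * (Real.exp (-((n : ℝ) ^ (2 / 3 : ℝ) * (M : ℝ) ^ (1 / 3 : ℝ))) *
      (M : ℝ) ^ n) := by
  classical
  have hn1 : 1 ≤ n := by omega
  obtain ⟨B, hB⟩ : ∃ B : Finset (Fin n → ℕ), B =
      (Fintype.piFinset fun _ : Fin n => Finset.Icc 1 M).filter (fun μ => ∃ d, Sp μ d) :=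
    ⟨_, rfl⟩
  have h := pairs_q hn1 hM B (fun μ hμ i => by
    rw [hB, Finset.mem_filter, box_mem] at hμ
    exact (hμ.1 i).2)
  have e : {q : (Fin n → ℕ) × ℕ | q.1 ∈ B ∧ Sp q.1 q.2} =
      {q : (Fin n → ℕ) × ℕ | (∀ i, 1 ≤ q.1 i ∧ q.1 i ≤ M) ∧ Sp q.1 q.2} := by
    ext q
    rw [Set.mem_setOf_eq, Set.mem_setOf_eq, hB, Finset.mem_filter, box_mem]
    constructor
    · rintro ⟨⟨a, _⟩, b⟩
      exact ⟨a, b⟩
    · rintro ⟨a, b⟩
      exact ⟨⟨a, q.2, b⟩, b⟩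
  rw [e] at h
  have e2 : ({μ : Fin n → ℕ | (∀ i, 1 ≤ μ i ∧ μ i ≤ M) ∧ ∃ d, Sp μ d}.ncard : ℕ) = B.card := by
    have e3 : {μ : Fin n → ℕ | (∀ i, 1 ≤ μ i ∧ μ i ≤ M) ∧ ∃ d, Sp μ d} = (B : Set (Fin n → ℕ)) := by
      ext μ
      rw [Set.mem_setOf_eq, Finset.mem_coe, hB, Finset.mem_filter, box_mem]
    rw [e3, Set.ncard_coe_finset]
  have h2 := exp_q hM hn
  rw [e2] at h2
  refine h.2.trans ?_
  exact mul_le_mul_of_nonneg_left h2 (by positivity)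

/-- the sum of squares of a typical vector -/
private lemma box_sq {n M : ℕ} (ν : Fin n → ℕ) (hν : ∀ i, ν i ≤ M)
    (hg : n ≤ 4 * (Finset.univ.filter fun i => M < 2 * ν i).card) :
    n * M ^ 2 ≤ 16 * ∑ i, ν i ^ 2 ∧ ∑ i, ν i ^ 2 ≤ n * M ^ 2 := by
  constructor
  · have h1 : (Finset.univ.filter fun i => M < 2 * ν i).card * M ^ 2 ≤ ∑ i, 4 * ν i ^ 2 := by
      calc (Finset.univ.filter fun i => M < 2 * ν i).card * M ^ 2
          = ∑ i ∈ Finset.univ.filter (fun i => M < 2 * ν i), M ^ 2 := by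
            rw [Finset.sum_const, smul_eq_mul]
        _ ≤ ∑ i ∈ Finset.univ.filter (fun i => M < 2 * ν i), 4 * ν i ^ 2 := by
            refine Finset.sum_le_sum fun i hi => ?_
            have h2 := (Finset.mem_filter.1 hi).2
            nlinarith
        _ ≤ ∑ i, 4 * ν i ^ 2 :=
            Finset.sum_le_sum_of_subset (Finset.filter_subset _ _)
    rw [← Finset.mul_sum] at h1
    calc n * M ^ 2 ≤ 4 * (Finset.univ.filter fun i => M < 2 * ν i).card * M ^ 2 :=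
          Nat.mul_le_mul_right _ hg
      _ = 4 * ((Finset.univ.filter fun i => M < 2 * ν i).card * M ^ 2) := by ring
      _ ≤ 4 * (4 * ∑ i, ν i ^ 2) := Nat.mul_le_mul_left _ h1
      _ = 16 * ∑ i, ν i ^ 2 := by ring
  · calc ∑ i, ν i ^ 2 ≤ ∑ _i : Fin n, M ^ 2 :=
          Finset.sum_le_sum fun i _ => Nat.pow_le_pow_left (hν i) 2
      _ = n * M ^ 2 := by
          rw [Finset.sum_const, Finset.card_univ, Fintype.card_fin, smul_eq_mul]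

/-- from `n` to `n + 1` -/
private lemma box_shift {n M : ℕ} (hn : 1 ≤ n) :
    ((M : ℝ) ^ (1 / 8 : ℝ) / √(n : ℝ) + M / (n : ℝ) ^ (5 / 2 : ℝ)) *
        Real.log ((n : ℝ) + 2) ^ 3 ≤
      6 * (((M : ℝ) ^ (1 / 8 : ℝ) / √((n : ℝ) + 1) + M / ((n : ℝ) + 1) ^ (5 / 2 : ℝ)) *
        Real.log ((n : ℝ) + 1 + 2) ^ 3) := by
  have hN : (1 : ℝ) ≤ n := by exact_mod_cast hn
  have hN0 : (0 : ℝ) < n := by linarith
  have hN1 : (0 : ℝ) < (n : ℝ) + 1 := by linarith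
  have h1 : 1 / √(n : ℝ) ≤ 6 / √((n : ℝ) + 1) := by
    rw [div_le_div_iff₀ (Real.sqrt_pos.2 hN0) (Real.sqrt_pos.2 hN1), one_mul]
    have h2 : √((n : ℝ) + 1) ≤ √(36 * (n : ℝ)) := Real.sqrt_le_sqrt (by linarith)
    have h3 : √(36 * (n : ℝ)) = 6 * √(n : ℝ) := by
      rw [Real.sqrt_mul (by norm_num)]
      congr 1
      rw [show (36 : ℝ) = 6 ^ 2 by norm_num]
      exact Real.sqrt_sq (by norm_num)
    linarith
  have h2 : 1 / (n : ℝ) ^ (5 / 2 : ℝ) ≤ 6 / ((n : ℝ) + 1) ^ (5 / 2 : ℝ) := by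
    rw [div_le_div_iff₀ (Real.rpow_pos_of_pos hN0 _) (Real.rpow_pos_of_pos hN1 _), one_mul]
    have h3 : ((n : ℝ) + 1) ^ (5 / 2 : ℝ) ≤ (2 * (n : ℝ)) ^ (5 / 2 : ℝ) :=
      Real.rpow_le_rpow hN1.le (by linarith) (by norm_num)
    rw [Real.mul_rpow (by norm_num) hN0.le] at h3
    have h4 : (2 : ℝ) ^ (5 / 2 : ℝ) ≤ 6 := by
      have h5 : ((2 : ℝ) ^ (5 / 2 : ℝ)) ^ 2 = 32 := by
        rw [← Real.rpow_natCast, ← Real.rpow_mul (by norm_num)]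
        have h6 : (5 / 2 : ℝ) * ((2 : ℕ) : ℝ) = ((5 : ℕ) : ℝ) := by norm_num
        rw [h6, Real.rpow_natCast]
        norm_num
      have h7 : 0 ≤ (2 : ℝ) ^ (5 / 2 : ℝ) := by positivity
      nlinarith
    refine h3.trans ?_
    exact mul_le_mul_of_nonneg_right h4 (by positivity)
  have h3 : Real.log ((n : ℝ) + 2) ^ 3 ≤ Real.log ((n : ℝ) + 1 + 2) ^ 3 := by
    refine pow_le_pow_left₀ (Real.log_nonneg (by linarith)) ?_ 3
    exact Real.log_le_log (by linarith) (by linarith)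
  have hlog0 : 0 ≤ Real.log ((n : ℝ) + 1 + 2) ^ 3 := pow_nonneg (Real.log_nonneg (by linarith)) 3
  have h4 : (M : ℝ) ^ (1 / 8 : ℝ) / √(n : ℝ) + M / (n : ℝ) ^ (5 / 2 : ℝ) ≤
      6 * ((M : ℝ) ^ (1 / 8 : ℝ) / √((n : ℝ) + 1) + M / ((n : ℝ) + 1) ^ (5 / 2 : ℝ)) := by
    have a1 : (0 : ℝ) ≤ (M : ℝ) ^ (1 / 8 : ℝ) := by positivity
    have a2 : (0 : ℝ) ≤ M := by positivity
    have b1 := mul_le_mul_of_nonneg_left h1 a1
    have b2 := mul_le_mul_of_nonneg_left h2 a2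
    have c1 : (M : ℝ) ^ (1 / 8 : ℝ) * (1 / √(n : ℝ)) = (M : ℝ) ^ (1 / 8 : ℝ) / √(n : ℝ) := by ring
    have c2 : (M : ℝ) * (1 / (n : ℝ) ^ (5 / 2 : ℝ)) = M / (n : ℝ) ^ (5 / 2 : ℝ) := by ring
    have c3 : (M : ℝ) ^ (1 / 8 : ℝ) * (6 / √((n : ℝ) + 1))
      = 6 * ((M : ℝ) ^ (1 / 8 : ℝ) / √((n : ℝ) + 1)) := by ring
    have c4 : (M : ℝ) * (6 / ((n : ℝ) + 1) ^ (5 / 2 : ℝ))
      = 6 * (M / ((n : ℝ) + 1) ^ (5 / 2 : ℝ)) := by ring
    rw [c1, c3] at b1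
    rw [c2, c4] at b2
    linarith
  calc ((M : ℝ) ^ (1 / 8 : ℝ) / √(n : ℝ) + M / (n : ℝ) ^ (5 / 2 : ℝ)) *
        Real.log ((n : ℝ) + 2) ^ 3
      ≤ (6 * ((M : ℝ) ^ (1 / 8 : ℝ) / √((n : ℝ) + 1) + M / ((n : ℝ) + 1) ^ (5 / 2 : ℝ))) *
        Real.log ((n : ℝ) + 1 + 2) ^ 3 :=
        mul_le_mul h4 h3 (pow_nonneg (Real.log_nonneg (by linarith)) 3) (by positivity)
    _ = _ := by ring

/-- UQ16 (THEOREM Q, the box). The number of pairs `(μ, d)`, `μ ∈ {1, .., M} ^ n`, with `L_d(μ)`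
special. `10 ^ 9 M ≤ n`: `exp_q`, `pairs_q` with `B` the finite set of the special vectors,
`num_exp`. `n < 10 ^ 9 M`, `n = n' + 1`: `n' = 0`: `pairs_q` with `B` the whole box gives
`4 M * M`, and the right side is at least `C M * M`. `n' ≥ 1`: `split_q` with `G` the `ν` with
`n' ≤ 4 #{i | M < 2 ν i}` (then `n' M ^ 2 ≤ 16 ∑ ν i ^ 2`), `one_q`, `num_q` for `n'`; the
complement of `G` by `atyp_q`, `num_atyp`. From `n'` to `n = n' + 1 ≤ 2 n'`: a factor at most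
`2 ^ (5 / 2)`. -/
theorem box_q : ∃ C : ℝ, 1 ≤ C ∧ ∀ n M : ℕ, 1 ≤ n → 1 ≤ M →
    {q : (Fin n → ℕ) × ℕ | (∀ i, 1 ≤ q.1 i ∧ q.1 i ≤ M) ∧ Sp q.1 q.2}.Finite ∧
    (({q : (Fin n → ℕ) × ℕ | (∀ i, 1 ≤ q.1 i ∧ q.1 i ≤ M) ∧ Sp q.1 q.2}.ncard : ℕ) : ℝ) ≤
      C * ((M : ℝ) ^ (1 / 8 : ℝ) / √(n : ℝ) + M / (n : ℝ) ^ (5 / 2 : ℝ)) *
        Real.log ((n : ℝ) + 2) ^ 3 * (M : ℝ) ^ n := by
  classical
  obtain ⟨C1, hC1, h1⟩ := one_q
  obtain ⟨C2, hC2, h2⟩ := num_atyp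
  obtain ⟨C3, hC3, h3⟩ := num_exp
  refine ⟨4 + 6 * 10 ^ 6 * C1 + C2 + C3, by nlinarith, fun n M hn hM => ⟨(box_pairs hn hM).1, ?_⟩⟩
  obtain ⟨X, hX⟩ : ∃ X : ℝ, X = ((M : ℝ) ^ (1 / 8 : ℝ) / √(n : ℝ) + M / (n : ℝ) ^ (5 / 2 : ℝ)) *
        Real.log ((n : ℝ) + 2) ^ 3 * (M : ℝ) ^ n := ⟨_, rfl⟩
  have hN : (1 : ℝ) ≤ n := by exact_mod_cast hn
  have hm : (1 : ℝ) ≤ M := by exact_mod_cast hM
  have hlog := box_log hN
  have hX0 : 0 ≤ X := by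
    rw [hX]
    have : 0 ≤ Real.log ((n : ℝ) + 2) ^ 3 := by linarith
    positivity
  have hgoal : (4 + 6 * 10 ^ 6 * C1 + C2 + C3) *
      ((M : ℝ) ^ (1 / 8 : ℝ) / √(n : ℝ) + M / (n : ℝ) ^ (5 / 2 : ℝ)) *
        Real.log ((n : ℝ) + 2) ^ 3 * (M : ℝ) ^ n = (4 + 6 * 10 ^ 6 * C1 + C2 + C3) * X := by
    rw [hX]
    ring
  rw [hgoal]
  have hC1X : 0 ≤ C1 * X := mul_nonneg (by linarith) hX0
  have hC2X : 0 ≤ C2 * X := mul_nonneg (by linarith) hX0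
  have hC3X : 0 ≤ C3 * X := mul_nonneg (by linarith) hX0
  rcases le_or_gt (10 ^ 9 * M) n with hc | hc
  · -- many points
    have g1 := box_large hM hc
    have g2 := h3 n M hM (by omega)
    have g3 : C3 * ((M : ℝ) ^ (1 / 8 : ℝ) / √(n : ℝ) + M / (n : ℝ) ^ (5 / 2 : ℝ)) *
        Real.log ((n : ℝ) + 2) ^ 3 * (M : ℝ) ^ n = C3 * X := by
      rw [hX]
      ring
    rw [g3] at g2
    have g4 := g1.trans g2
    nlinarith
  · obtain ⟨k, rfl⟩ : ∃ k, n = k + 1 := ⟨n - 1, by omega⟩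
    rcases Nat.eq_zero_or_pos k with hk | hk
    · -- one point
      subst hk
      have g1 := (box_pairs hn hM).2
      have g2 : (M : ℝ) * (M : ℝ) ^ (0 + 1) ≤ X := by
        rw [hX]
        refine mul_le_mul_of_nonneg_right ?_ (by positivity)
        have g3 : ((0 + 1 : ℕ) : ℝ) = 1 := by norm_num
        rw [g3] at hlog ⊢
        rw [Real.one_rpow, Real.sqrt_one, div_one, div_one]
        have g4 : (0 : ℝ) ≤ (M : ℝ) ^ (1 / 8 : ℝ) := by positivity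
        calc (M : ℝ) = (M : ℝ) * 1 := (mul_one _).symm
          _ ≤ ((M : ℝ) ^ (1 / 8 : ℝ) + M) * Real.log (1 + 2) ^ 3 :=
              mul_le_mul (by linarith) hlog zero_le_one (by positivity)
      have g5 : √(((0 + 1 : ℕ)) : ℝ) = 1 := by norm_num
      rw [g5] at g1
      have g6 : 4 * (M : ℝ) * 1 * (M : ℝ) ^ (0 + 1) = 4 * ((M : ℝ) * (M : ℝ) ^ (0 + 1)) := by ring
      rw [g6] at g1
      nlinarith
    · -- the general case
      have hK : (1 : ℝ) ≤ k := by exact_mod_cast hk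
      obtain ⟨G, hG⟩ : ∃ G : Finset (Fin k → ℕ), G =
          (Fintype.piFinset fun _ : Fin k => Finset.Icc 1 M).filter fun ν =>
            k ≤ 4 * (Finset.univ.filter fun i => M < 2 * ν i).card := ⟨_, rfl⟩
      obtain ⟨Y, hY⟩ : ∃ Y : ℝ, Y = ((M : ℝ) ^ (1 / 8 : ℝ) / √(k : ℝ)
        + M / (k : ℝ) ^ (5 / 2 : ℝ)) * Real.log ((k : ℝ) + 2) ^ 3 := ⟨_, rfl⟩
      have hlk := box_log hK
      have hY0 : 0 ≤ Y := by
        rw [hY]
        have : 0 ≤ Real.log ((k : ℝ) + 2) ^ 3 := by linarith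
        positivity
      have g1 := split_q (n := k) hM G (C1 * (10 ^ 6 * (Y * M))) (by
        rw [hG]
        exact Finset.filter_subset _ _) (fun ν hν => by
          rw [hG, Finset.mem_filter, box_mem] at hν
          obtain ⟨a1, a2⟩ := hν
          obtain ⟨b1, b2⟩ := box_sq ν (fun i => (a1 i).2) a2
          have b3 : 0 < ∑ i, ν i ^ 2 := by
            have : 0 < k * M ^ 2 := by positivity
            omega
          obtain ⟨W, hW⟩ : ∃ W : ℝ, W = ((M : ℝ) ^ (9 / 8 : ℝ)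
            + (M : ℝ) ^ 6 / ((∑ i, ν i ^ 2 : ℕ) : ℝ) ^ 2) *
            Real.log (((∑ i, ν i ^ 2 : ℕ) : ℝ) / (M : ℝ) ^ 2 + 2) ^ 3 := ⟨_, rfl⟩
          obtain ⟨c1, c2⟩ := h1 k M ν W hM (fun i => (a1 i).2) b3 hW
          refine ⟨c1, c2.trans ?_⟩
          have b4 : (k : ℝ) * (M : ℝ) ^ 2 ≤ 16 * ((∑ i, ν i ^ 2 : ℕ) : ℝ) := by exact_mod_cast b1
          have b5 : ((∑ i, ν i ^ 2 : ℕ) : ℝ) ≤ k * (M : ℝ) ^ 2 := by exact_mod_cast b2
          have d1 := num_q (n := k) (M := M) (by omega) hM (by omega) b4 b5 hW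
          refine mul_le_mul_of_nonneg_left ?_ (by linarith)
          refine d1.trans (le_of_eq ?_)
          rw [hY]
          ring) (by positivity)
      have g2 : (Fintype.piFinset fun _ : Fin k => Finset.Icc 1 M) \ G =
          (Fintype.piFinset fun _ : Fin k => Finset.Icc 1 M).filter fun ν =>
            4 * (Finset.univ.filter fun i => M < 2 * ν i).card < k := by
        ext ν
        rw [hG, Finset.mem_sdiff, Finset.mem_filter, Finset.mem_filter]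
        constructor
        · rintro ⟨a, b⟩
          refine ⟨a, ?_⟩
          by_contra hcon
          exact b ⟨a, not_lt.1 hcon⟩
        · rintro ⟨a, b⟩
          exact ⟨a, fun h => absurd h.2 (not_le.2 b)⟩
      have g3 := g1.2
      rw [g2] at g3
      have g4 := atyp_q (n := k) hM
      have g5 := h2 k M hM
      have hcast : (((k + 1 : ℕ)) : ℝ) = (k : ℝ) + 1 := by push_cast; ring
      have g6 : C2 * ((M : ℝ) ^ (1 / 8 : ℝ) / √((k : ℝ) + 1) + M / ((k : ℝ) + 1) ^ (5 / 2 : ℝ)) *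
        Real.log ((k : ℝ) + 1 + 2) ^ 3 * (M : ℝ) ^ (k + 1) = C2 * X := by
        rw [hX, hcast]
        ring
      rw [g6] at g5
      have g7 : 4 * (M : ℝ) ^ 2 * √((k : ℝ) + 1) *
          (((Fintype.piFinset fun _ : Fin k => Finset.Icc 1 M).filter fun ν =>
            4 * (Finset.univ.filter fun i => M < 2 * ν i).card < k).card : ℝ) ≤ C2 * X :=
        (mul_le_mul_of_nonneg_left g4 (by positivity)).trans g5
      have g8 : C1 * (10 ^ 6 * (Y * M)) * (M : ℝ) ^ k ≤ 6 * 10 ^ 6 * C1 * X := by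
        have g9 := box_shift (n := k) (M := M) hk
        rw [← hY] at g9
        have g10 : X = ((M : ℝ) ^ (1 / 8 : ℝ) / √((k : ℝ) + 1)
          + M / ((k : ℝ) + 1) ^ (5 / 2 : ℝ)) * Real.log ((k : ℝ) + 1 + 2) ^ 3
            * ((M : ℝ) * (M : ℝ) ^ k) := by
          rw [hX, hcast, pow_succ]
          ring
        have g11 : Y * ((M : ℝ) * (M : ℝ) ^ k) ≤ 6 * X := by
          rw [g10]
          have g12 := mul_le_mul_of_nonneg_right g9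
            (show (0 : ℝ) ≤ (M : ℝ) * (M : ℝ) ^ k by positivity)
          refine g12.trans (le_of_eq ?_)
          ring
        calc C1 * (10 ^ 6 * (Y * M)) * (M : ℝ) ^ k
            = C1 * 10 ^ 6 * (Y * ((M : ℝ) * (M : ℝ) ^ k)) := by ring
          _ ≤ C1 * 10 ^ 6 * (6 * X) := mul_le_mul_of_nonneg_left g11 (by positivity)
          _ = 6 * 10 ^ 6 * C1 * X := by ring
      nlinarith

end Pool.Agent.Lib.MP_6b2d39_agUq
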