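import Pool.Agent.Lib.MP_6b2d39_agUq.BlkQ

set_option autoImplicit false

namespace Pool.Agent.Lib.MP_6b2d39_agUq

private lemma cq_choose (d : ℕ) : (((d + 2).choose 2 : ℕ) : ℝ) = ((d : ℝ) + 2) * ((d : ℝ) + 1) / 2 := by
  rw [Nat.cast_choose_two]; push_cast; ring

private lemma cq_fib (K : ℕ) (A D W : ℝ) (hD : 1 ≤ D) (hW : 0 ≤ W) :
    (((Finset.range K).filter (fun d : ℕ =>
      D ≤ (d : ℝ) + 1 ∧ |(((d + 2).choose 2 : ℕ) : ℝ) - A| < W)).card : ℝ) ≤ 2 * W / D + 1 := by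
  set S := (Finset.range K).filter (fun d : ℕ =>
      D ≤ (d : ℝ) + 1 ∧ |(((d + 2).choose 2 : ℕ) : ℝ) - A| < W) with hS
  have hD0 : 0 < D := by linarith
  rcases S.eq_empty_or_nonempty with he | hne
  · rw [he]; simp only [Finset.card_empty, Nat.cast_zero]; positivity
  · have h1 := S.min'_mem hne
    have h2 := S.max'_mem hne
    have h3 : S.card ≤ S.max' hne + 1 - S.min' hne := by
      have hsub : S ⊆ Finset.Icc (S.min' hne) (S.max' hne) := by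
        intro d hd
        rw [Finset.mem_Icc]
        exact ⟨S.min'_le d hd, S.le_max' d hd⟩
      have := Finset.card_le_card hsub
      rwa [Nat.card_Icc] at this
    have h12 : S.min' hne ≤ S.max' hne := S.min'_le _ h2
    generalize S.min' hne = u at h1 h3 h12
    generalize S.max' hne = v at h2 h3 h12
    rw [hS, Finset.mem_filter] at h1 h2
    obtain ⟨-, hu1, hu2⟩ := h1
    obtain ⟨-, hv1, hv2⟩ := h2
    rw [cq_choose, abs_lt] at hu2 hv2
    have huv : (u : ℝ) ≤ (v : ℝ) := by exact_mod_cast h12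
    have h4 : (S.card : ℝ) ≤ (v : ℝ) - (u : ℝ) + 1 := by
      have : S.card + u ≤ v + 1 := by omega
      have : (S.card : ℝ) + (u : ℝ) ≤ (v : ℝ) + 1 := by exact_mod_cast this
      linarith
    have h5 : ((v : ℝ) - (u : ℝ)) * D ≤ 2 * W := by
      have h6 : ((v : ℝ) - (u : ℝ)) * D ≤ ((v : ℝ) - (u : ℝ)) * ((u : ℝ) + 1) :=
        mul_le_mul_of_nonneg_left hu1 (by linarith)
      nlinarith [hu2.1, hu2.2, hv2.1, hv2.2, h6, huv]
    have h7 : (v : ℝ) - (u : ℝ) ≤ 2 * W / D := by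
      rw [le_div_iff₀ hD0]; exact h5
    linarith

private lemma cq_low (N K : ℕ) (a : ℤ) (D W : ℝ) (hD : 1 ≤ D) (hW : 0 ≤ W) :
    (((Finset.range N ×ˢ Finset.range K).filter (fun p : ℕ × ℕ =>
      D ≤ (p.2 : ℝ) + 1 ∧
        |(((p.2 + 2).choose 2 : ℕ) : ℝ) - (((p.1 + 1).choose 2 : ℕ) : ℝ) - (a : ℝ)| < W)).card : ℝ) ≤
      (N : ℝ) * (2 * W / D + 1) := by
  rw [Finset.card_filter, Finset.sum_product]
  push_cast
  have h : ∀ m ∈ Finset.range N, (∑ d ∈ Finset.range K,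
      (if D ≤ (d : ℝ) + 1 ∧
        |(((d + 2).choose 2 : ℕ) : ℝ) - (((m + 1).choose 2 : ℕ) : ℝ) - (a : ℝ)| < W then (1 : ℝ)
        else 0)) ≤ 2 * W / D + 1 := by
    intro m _
    have h1 := cq_fib K ((((m + 1).choose 2 : ℕ) : ℝ) + (a : ℝ)) D W hD hW
    rw [Finset.card_filter] at h1
    push_cast at h1
    refine le_trans (le_of_eq ?_) h1
    refine Finset.sum_congr rfl fun d _ => ?_
    have : (((d + 2).choose 2 : ℕ) : ℝ) - (((m + 1).choose 2 : ℕ) : ℝ) - (a : ℝ) =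
        (((d + 2).choose 2 : ℕ) : ℝ) - ((((m + 1).choose 2 : ℕ) : ℝ) + (a : ℝ)) := by ring
    rw [this]
  have h2 := Finset.sum_le_sum h
  rw [Finset.sum_const, Finset.card_range, nsmul_eq_mul] at h2
  exact h2

private lemma cq_step (M K : ℕ) (a : ℤ) (D W T : ℝ) (hD : 1 ≤ D) (hT : 1 ≤ T) (hTW : T ≤ W)
    (hWT : W ≤ T ^ 2) :
    (((Finset.range (M + 1) ×ˢ Finset.range K).filter (fun p : ℕ × ℕ =>
      (p.1 : ℝ) ≤ 2 * T ∧ D ≤ (p.2 : ℝ) + 1 ∧
        |(((p.2 + 2).choose 2 : ℕ) : ℝ) - (((p.1 + 1).choose 2 : ℕ) : ℝ) - (a : ℝ)| < W)).card : ℝ) ≤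
      (((Finset.range (M + 1) ×ˢ Finset.range K).filter (fun p : ℕ × ℕ =>
      (p.1 : ℝ) ≤ T ∧ D ≤ (p.2 : ℝ) + 1 ∧
        |(((p.2 + 2).choose 2 : ℕ) : ℝ) - (((p.1 + 1).choose 2 : ℕ) : ℝ) - (a : ℝ)| < W)).card : ℝ) +
      (14 * T * W / D + 3 * W / T) := by
  have h1 := blk_q M K a D W T hD hT hTW hWT
  refine le_trans ?_ (add_le_add_right h1 _)
  rw [← Nat.cast_add]
  refine Nat.cast_le.mpr (le_trans (Finset.card_le_card ?_) (Finset.card_union_le _ _))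
  intro p hp
  rw [Finset.mem_union, Finset.mem_filter, Finset.mem_filter]
  rw [Finset.mem_filter] at hp
  by_cases hc : (p.1 : ℝ) ≤ T
  · exact Or.inl ⟨hp.1, hc, hp.2.2⟩
  · exact Or.inr ⟨hp.1, ⟨not_le.mp hc, hp.2.1⟩, hp.2.2⟩

private lemma cq_dy (M K : ℕ) (a : ℤ) (D W : ℝ) (hD : 1 ≤ D) (hW1 : 1 ≤ W)
    (hMW : (M : ℝ) ≤ W) (k : ℕ) (hk : ∀ j < k, 2 ^ j * √W < (M : ℝ)) :
    (((Finset.range (M + 1) ×ˢ Finset.range K).filter (fun p : ℕ × ℕ =>
      (p.1 : ℝ) ≤ 2 ^ k * √W ∧ D ≤ (p.2 : ℝ) + 1 ∧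
        |(((p.2 + 2).choose 2 : ℕ) : ℝ) - (((p.1 + 1).choose 2 : ℕ) : ℝ) - (a : ℝ)| < W)).card : ℝ) ≤
      (((Finset.range (M + 1) ×ˢ Finset.range K).filter (fun p : ℕ × ℕ =>
      (p.1 : ℝ) ≤ √W ∧ D ≤ (p.2 : ℝ) + 1 ∧
        |(((p.2 + 2).choose 2 : ℕ) : ℝ) - (((p.1 + 1).choose 2 : ℕ) : ℝ) - (a : ℝ)| < W)).card : ℝ) +
      (14 * W / D * (2 ^ k * √W - √W) + 3 * W * (2 / √W - 2 / (2 ^ k * √W))) := by
  have hs : 1 ≤ √W := by rw [Real.one_le_sqrt]; exact hW1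
  have hs0 : 0 < √W := by linarith
  have hD0 : 0 < D := by linarith
  induction k with
  | zero => simp
  | succ k ih =>
    have ih' := ih (fun j hj => hk j (by omega))
    have hkk := hk k (by omega)
    have hT : (1 : ℝ) ≤ 2 ^ k * √W := by
      have : (1 : ℝ) ≤ 2 ^ k := one_le_pow₀ (by norm_num)
      nlinarith
    have hp : (1 : ℝ) ≤ 2 ^ k := one_le_pow₀ (by norm_num)
    have hWT : W ≤ (2 ^ k * √W) ^ 2 := by
      rw [mul_pow, Real.sq_sqrt (by linarith)]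
      have : (1 : ℝ) ≤ (2 ^ k) ^ 2 := one_le_pow₀ hp
      nlinarith
    have h1 := cq_step M K a D W (2 ^ k * √W) hD hT (by linarith) hWT
    have e : (2 : ℝ) ^ (k + 1) * √W = 2 * (2 ^ k * √W) := by ring
    rw [e]
    refine le_trans h1 ?_
    refine le_trans (add_le_add_left ih' _) ?_
    have hT0 : (0 : ℝ) < 2 ^ k * √W := by linarith
    apply le_of_eq
    field_simp
    ring

/-- UQ5. For one `m` at most `2 W / D + 1` of the `d`. If `M ^ 2 ≤ W`: at most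
`(M + 1) (2 W / D + 1) ≤ 4 M W / D + 2 √W`. If `W < M ^ 2`: the `m ≤ √W` give at most
`(√W + 1) (2 W / D + 1) ≤ 4 M W / D + 2 √W`, the others lie in the blocks `T = 2 ^ i √W < M`
(`blk_q`, `W ≤ T ^ 2`, `T ≤ M ≤ W`); the sum of their `14 T W / D` is at most `28 M W / D`, the sum
of their `3 W / T` at most `6 √W`. -/
theorem cnt_q (M K : ℕ) (a : ℤ) (D W : ℝ) (hM : 1 ≤ M) (hD : 1 ≤ D) (hMW : (M : ℝ) ≤ W) :
    (((Finset.range (M + 1) ×ˢ Finset.range K).filter (fun p : ℕ × ℕ =>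
      D ≤ (p.2 : ℝ) + 1 ∧
        |(((p.2 + 2).choose 2 : ℕ) : ℝ) - (((p.1 + 1).choose 2 : ℕ) : ℝ) - (a : ℝ)| < W)).card : ℝ) ≤
      40 * (M * W / D + √W) := by
  have hM1 : (1 : ℝ) ≤ (M : ℝ) := by exact_mod_cast hM
  have hW1 : 1 ≤ W := le_trans hM1 hMW
  have hD0 : 0 < D := by linarith
  have hs : 1 ≤ √W := by rw [Real.one_le_sqrt]; exact hW1
  have hs0 : 0 < √W := by linarith
  have hss : √W * √W = W := Real.mul_self_sqrt (by linarith)
  have hq0 : 0 ≤ W / D := by positivity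
  rcases le_or_gt (M : ℝ) (√W) with hc | hc
  · have h1 := cq_low (M + 1) K a D W hD (by linarith)
    refine le_trans h1 ?_
    push_cast
    have e1 : 2 * W / D = 2 * (W / D) := by ring
    have e2 : (M : ℝ) * W / D = M * (W / D) := by ring
    rw [e1, e2]
    generalize W / D = q at hq0
    nlinarith [mul_nonneg hq0 (by linarith : (0 : ℝ) ≤ (M : ℝ) - 1), mul_nonneg hq0 (by linarith : (0 : ℝ) ≤ (M : ℝ))]
  · -- the least `k` with `M ≤ 2 ^ k √W`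
    have hex : ∃ k : ℕ, (M : ℝ) ≤ 2 ^ k * √W := by
      obtain ⟨k, hk⟩ := pow_unbounded_of_one_lt (M : ℝ) (by norm_num : (1 : ℝ) < 2)
      refine ⟨k, ?_⟩
      have : (0 : ℝ) < 2 ^ k := by positivity
      nlinarith
    classical
    obtain ⟨k, hk1, hk2⟩ : ∃ k : ℕ, (M : ℝ) ≤ 2 ^ k * √W ∧ ∀ j < k, 2 ^ j * √W < (M : ℝ) :=
      ⟨Nat.find hex, Nat.find_spec hex, fun j hj => not_le.mp (Nat.find_min hex hj)⟩
    have hk3 : 2 ^ k * √W ≤ 2 * (M : ℝ) := by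
      rcases k with _ | k
      · rw [pow_zero, one_mul]; linarith
      · have := hk2 k (by omega)
        rw [pow_succ]; nlinarith
    have h1 := cq_dy M K a D W hD hW1 hMW k hk2
    have h2 : (((Finset.range (M + 1) ×ˢ Finset.range K).filter (fun p : ℕ × ℕ =>
      (p.1 : ℝ) ≤ √W ∧ D ≤ (p.2 : ℝ) + 1 ∧
        |(((p.2 + 2).choose 2 : ℕ) : ℝ) - (((p.1 + 1).choose 2 : ℕ) : ℝ) - (a : ℝ)| < W)).card : ℝ) ≤
        (√W + 1) * (2 * W / D + 1) := by
      have h3 := cq_low (⌊√W⌋₊ + 1) K a D W hD (by linarith)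
      refine le_trans (Nat.cast_le.mpr (Finset.card_le_card ?_)) (le_trans h3 ?_)
      · intro p hp
        rw [Finset.mem_filter, Finset.mem_product] at hp ⊢
        refine ⟨⟨?_, hp.1.2⟩, hp.2.2⟩
        rw [Finset.mem_range]
        have := Nat.le_floor hp.2.1
        omega
      · push_cast
        have : (⌊√W⌋₊ : ℝ) ≤ √W := Nat.floor_le hs0.le
        have h0 : 0 ≤ 2 * W / D + 1 := by positivity
        nlinarith
    have h4 : (((Finset.range (M + 1) ×ˢ Finset.range K).filter (fun p : ℕ × ℕ =>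
      D ≤ (p.2 : ℝ) + 1 ∧
        |(((p.2 + 2).choose 2 : ℕ) : ℝ) - (((p.1 + 1).choose 2 : ℕ) : ℝ) - (a : ℝ)| < W)).card : ℝ) ≤
        (((Finset.range (M + 1) ×ˢ Finset.range K).filter (fun p : ℕ × ℕ =>
      (p.1 : ℝ) ≤ 2 ^ k * √W ∧ D ≤ (p.2 : ℝ) + 1 ∧
        |(((p.2 + 2).choose 2 : ℕ) : ℝ) - (((p.1 + 1).choose 2 : ℕ) : ℝ) - (a : ℝ)| < W)).card : ℝ) := by
      refine Nat.cast_le.mpr (Finset.card_le_card ?_)
      intro p hp
      rw [Finset.mem_filter] at hp ⊢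
      refine ⟨hp.1, ?_, hp.2⟩
      have h5 := (Finset.mem_product.mp hp.1).1
      rw [Finset.mem_range] at h5
      have h6 : (p.1 : ℝ) ≤ (M : ℝ) := by exact_mod_cast (by omega : p.1 ≤ M)
      linarith
    refine le_trans h4 (le_trans h1 ?_)
    have h5 : 3 * W * (2 / √W - 2 / (2 ^ k * √W)) ≤ 6 * √W := by
      have h6 : 0 ≤ 2 / (2 ^ k * √W) := by positivity
      have h7 : 3 * W * (2 / √W) = 6 * √W := by
        field_simp
        nlinarith
      nlinarith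
    have h8 : 14 * W / D * (2 ^ k * √W - √W) ≤ 28 * (M * (W / D)) := by
      have e1 : 14 * W / D = 14 * (W / D) := by ring
      rw [e1]
      nlinarith [mul_nonneg hq0 (by linarith : (0 : ℝ) ≤ 2 * (M : ℝ) - (2 ^ k * √W - √W))]
    have e1 : 2 * W / D = 2 * (W / D) := by ring
    have e2 : (M : ℝ) * W / D = M * (W / D) := by ring
    rw [e1] at h2
    rw [e2]
    generalize W / D = q at hq0 h2 h8
    have h9 : (√W + 1) * (2 * q + 1) ≤ 4 * (M * q) + 2 * √W := by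
      nlinarith [mul_nonneg hq0 (by linarith : (0 : ℝ) ≤ (M : ℝ) - √W), mul_nonneg hq0 (by linarith : (0 : ℝ) ≤ √W - 1)]
    have h10 : 0 ≤ M * q := by positivity
    linarith

end Pool.Agent.Lib.MP_6b2d39_agUq
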