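import Pool.Agent.Lib.MP_6b2d39_agUn.Triv
import Pool.Agent.Lib.MP_6b2d39_agUp.P2Main

/-!
THEOREM Q: the average number of special degrees over a box of multiplicity vectors.
Here: a system which is special has `(d + 1) ^ 2` between `S / 16` and `12 M ^ 2 + 2 S`,
`S = ∑ μ i ^ 2`, and small `|vd d μ|`.
-/

set_option autoImplicit false

namespace Pool.Agent.Lib.MP_6b2d39_agUq

open Pool.Agent.Lib.MP_6b2d39_agUn Pool.Agent.Lib.MP_6b2d39_agUp Pool.Agent.Lib.MP_6b2d39_agCr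

/-- the system `L_d(μ)` is special: for general points its dimension is not `max (vd d μ) 0` -/
def Sp {n : ℕ} (μ : Fin n → ℕ) (d : ℕ) : Prop :=
  ¬ General (fun P => (Module.finrank ℂ (curves d μ P) : ℤ) = max (vd d μ) 0)

private theorem le_of_sq_le_sq {a b : ℝ} (h : a ^ 2 ≤ b ^ 2) (hb : 0 ≤ b) : a ≤ b := by
  by_contra hcon
  push Not at hcon
  nlinarith

private theorem q_choose (a : ℕ) : 2 * (((a + 1).choose 2 : ℕ) : ℤ) = ((a : ℤ) + 1) * a := by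
  have h := Nat.add_one_mul_choose_eq a 1
  rw [Nat.choose_one_right] at h
  have h2 : (((a + 1) * a : ℕ) : ℤ) = (((a + 1).choose (1 + 1) * (1 + 1) : ℕ) : ℤ) := by rw [h]
  push_cast at h2
  linarith

private theorem two_vd {n : ℕ} (d : ℕ) (μ : Fin n → ℕ) :
    2 * vd d μ = ((d : ℤ) + 1) * (d + 2) - ∑ i, (μ i : ℤ) * (μ i + 1) := by
  have e1 : vd d μ = ((d + 1 + 1).choose 2 : ℤ) - ∑ i, ((μ i + 1).choose 2 : ℤ) := rfl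
  have h1 := q_choose (d + 1)
  have h2 : 2 * ∑ i, ((μ i + 1).choose 2 : ℤ) = ∑ i, (μ i : ℤ) * (μ i + 1) := by
    rw [Finset.mul_sum]
    refine Finset.sum_congr rfl fun i _ => ?_
    have := q_choose (μ i)
    linarith
  push_cast at h1
  rw [e1]
  linarith

private theorem sum_bd {n : ℕ} (μ : Fin n → ℕ) :
    ∑ i, (μ i : ℤ) * (μ i + 1) ≤ 2 * ∑ i, (μ i : ℤ) ^ 2 := by
  rw [Finset.mul_sum]
  refine Finset.sum_le_sum fun i _ => ?_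
  rcases Nat.eq_zero_or_pos (μ i) with h | h
  · simp [h]
  · have h1 : (1 : ℤ) ≤ μ i := by exact_mod_cast h
    nlinarith

private theorem sum_bd' {n : ℕ} (μ : Fin n → ℕ) :
    ∑ i, (μ i : ℤ) ^ 2 ≤ ∑ i, (μ i : ℤ) * (μ i + 1) := by
  refine Finset.sum_le_sum fun i _ => ?_
  have h1 : (0 : ℤ) ≤ μ i := by positivity
  nlinarith

private theorem Sp.vd_lt {n d M : ℕ} {μ : Fin n → ℕ} (hM : 1 ≤ M) (hμ : ∀ i, μ i ≤ M)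
    (h : Sp μ d) : |vd d μ| < 6 * (M : ℤ) ^ 2 := by
  by_contra hcon
  push Not at hcon
  exact h (triv_u hM hμ hcon)

/-- UQ1. `|vd d μ| < 6 M ^ 2` by `triv_u`; `2 vd d μ = (d + 1) (d + 2) - ∑ μ i (μ i + 1)` and
`μ i (μ i + 1) ≤ 2 (μ i) ^ 2`, so `(d + 1) ^ 2 ≤ 2 vd d μ + 2 ∑ (μ i) ^ 2`. -/
theorem sp_le {n d M : ℕ} {μ : Fin n → ℕ} (hM : 1 ≤ M) (hμ : ∀ i, μ i ≤ M) (h : Sp μ d) :
    (d + 1) ^ 2 ≤ 12 * M ^ 2 + 2 * ∑ i, μ i ^ 2 := by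
  have hlt := Sp.vd_lt hM hμ h
  have h2 := two_vd d μ
  have hS := sum_bd μ
  have hle := (abs_lt.1 hlt).2
  zify
  have e1 : ((d : ℤ) + 1) * (d + 2) = 2 * vd d μ + ∑ i, (μ i : ℤ) * (μ i + 1) := by linarith
  nlinarith

/-- UQ2. `2 vd d μ ≤ (d + 1) (d + 2) - ∑ (μ i) ^ 2 ≤ 2 (d + 1) ^ 2 - ∑ (μ i) ^ 2`. If
`16 (d + 1) ^ 2 < ∑ (μ i) ^ 2` this is `≤ - (7 / 8) ∑ (μ i) ^ 2 ≤ - 12 M ^ 2`, which contradicts
`triv_u`. -/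
theorem sp_ge {n d M : ℕ} {μ : Fin n → ℕ} (hM : 1 ≤ M) (hμ : ∀ i, μ i ≤ M)
    (hS : 14 * M ^ 2 ≤ ∑ i, μ i ^ 2) (h : Sp μ d) : ∑ i, μ i ^ 2 ≤ 16 * (d + 1) ^ 2 := by
  by_contra hcon
  push Not at hcon
  have hlt := Sp.vd_lt hM hμ h
  have h2 := two_vd d μ
  have hS1 := sum_bd' μ
  have hge := (abs_lt.1 hlt).1
  zify at hcon hS
  have hd : (0 : ℤ) ≤ d := by positivity
  have e3 : ((d : ℤ) + 1) * (d + 2) ≤ 2 * ((d : ℤ) + 1) ^ 2 := by nlinarith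
  linarith

/-- UQ3. `main_up` (constant `C0`, contraposition: `|vd d μ| <` its window). `sp_ge`:
`M ^ 6 / (d + 1) ^ 4 ≤ 256 M ^ 6 / S ^ 2`. `sp_le`: `(d + 1) ^ 2 ≤ 3 S`, so
`(d + 1) / M ≤ 2 √S / M ≤ 2 S / M ^ 2` and `log (2 x + 2) ≤ 2 log (x + 2)`, `x = S / M ^ 2`.
`C = 2048 C0`. -/
theorem loc_q : ∃ C : ℝ, 1 ≤ C ∧ ∀ (n d M : ℕ) (μ : Fin n → ℕ), 1 ≤ M → (∀ i, μ i ≤ M) →
    14 * M ^ 2 ≤ ∑ i, μ i ^ 2 → Sp μ d →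
    |((vd d μ : ℤ) : ℝ)| < C * ((M : ℝ) ^ (9 / 8 : ℝ) +
      (M : ℝ) ^ 6 / ((∑ i, μ i ^ 2 : ℕ) : ℝ) ^ 2) *
        Real.log (((∑ i, μ i ^ 2 : ℕ) : ℝ) / (M : ℝ) ^ 2 + 2) ^ 3 := by
  obtain ⟨C0, hC0, hU⟩ := main_up
  refine ⟨2048 * C0, by linarith, fun n d M μ hM hμ hS h => ?_⟩
  have h1 : |((vd d μ : ℤ) : ℝ)| < C0 * ((M : ℝ) ^ (9 / 8 : ℝ) + (M : ℝ) ^ 6 / ((d : ℝ) + 1) ^ 4) *
      Real.log (((d : ℝ) + 1) / M + 2) ^ 3 := by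
    by_contra hcon
    push Not at hcon
    exact h (hU n d M μ hM hμ hcon)
  refine lt_of_lt_of_le h1 ?_
  have hle := sp_le hM hμ h
  have hge := sp_ge hM hμ hS h
  obtain ⟨S, hSe⟩ : ∃ S : ℕ, S = ∑ i, μ i ^ 2 := ⟨_, rfl⟩
  rw [← hSe] at hle hge hS ⊢
  have hm : (1 : ℝ) ≤ M := by exact_mod_cast hM
  have hm2 : (0 : ℝ) < (M : ℝ) ^ 2 := by positivity
  have hS' : 14 * (M : ℝ) ^ 2 ≤ (S : ℝ) := by exact_mod_cast hS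
  have hle' : ((d : ℝ) + 1) ^ 2 ≤ 12 * (M : ℝ) ^ 2 + 2 * S := by exact_mod_cast hle
  have hge' : (S : ℝ) ≤ 16 * ((d : ℝ) + 1) ^ 2 := by exact_mod_cast hge
  have hSp : (0 : ℝ) < S := by nlinarith
  have hd1 : (0 : ℝ) < (d : ℝ) + 1 := by positivity
  have hdS : ((d : ℝ) + 1) ^ 2 ≤ 3 * S := by nlinarith
  -- the first factor
  have hA : (M : ℝ) ^ 6 / ((d : ℝ) + 1) ^ 4 ≤ 256 * ((M : ℝ) ^ 6 / (S : ℝ) ^ 2) := by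
    have h3 : (S : ℝ) ^ 2 ≤ 256 * ((d : ℝ) + 1) ^ 4 := by
      have := pow_le_pow_left₀ hSp.le hge' 2
      calc (S : ℝ) ^ 2 ≤ (16 * ((d : ℝ) + 1) ^ 2) ^ 2 := this
        _ = 256 * ((d : ℝ) + 1) ^ 4 := by ring
    rw [← mul_div_assoc, div_le_div_iff₀ (by positivity) (by positivity)]
    have h4 : (0 : ℝ) ≤ (M : ℝ) ^ 6 := by positivity
    nlinarith [mul_le_mul_of_nonneg_left h3 h4]
  -- the logarithm
  have hx : ((d : ℝ) + 1) / M ≤ 2 * (S / (M : ℝ) ^ 2) := by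
    rw [div_le_iff₀ (by linarith)]
    have h5 : 2 * ((S : ℝ) / (M : ℝ) ^ 2) * M = 2 * S / M := by
      field_simp
    rw [h5, le_div_iff₀ (by linarith)]
    have h6 : (((d : ℝ) + 1) * (M : ℝ)) ^ 2 ≤ (2 * (S : ℝ)) ^ 2 := by
      calc (((d : ℝ) + 1) * (M : ℝ)) ^ 2 = ((d : ℝ) + 1) ^ 2 * (M : ℝ) ^ 2 := by ring
        _ ≤ (3 * (S : ℝ)) * ((S : ℝ) / 14) := by
            apply mul_le_mul hdS _ hm2.le (by positivity)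
            linarith
        _ ≤ (2 * (S : ℝ)) ^ 2 := by nlinarith
    exact le_of_sq_le_sq h6 (by positivity)
  have hx0 : (0 : ℝ) ≤ S / (M : ℝ) ^ 2 := by positivity
  have hlog : Real.log (((d : ℝ) + 1) / M + 2) ≤ 2 * Real.log ((S : ℝ) / (M : ℝ) ^ 2 + 2) := by
    have h7 : ((d : ℝ) + 1) / M + 2 ≤ ((S : ℝ) / (M : ℝ) ^ 2 + 2) ^ 2 := by nlinarith
    have h8 : (0 : ℝ) < ((d : ℝ) + 1) / M + 2 := by positivity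
    have h9 := Real.log_le_log h8 h7
    rw [Real.log_pow] at h9
    push_cast at h9
    exact h9
  have hlog0 : 0 ≤ Real.log (((d : ℝ) + 1) / M + 2) := by
    apply Real.log_nonneg
    have : (0 : ℝ) ≤ ((d : ℝ) + 1) / M := by positivity
    linarith
  have hlog3 := pow_le_pow_left₀ hlog0 hlog 3
  have hL0 : 0 ≤ Real.log ((S : ℝ) / (M : ℝ) ^ 2 + 2) := Real.log_nonneg (by linarith)
  have hB : (M : ℝ) ^ (9 / 8 : ℝ) + (M : ℝ) ^ 6 / ((d : ℝ) + 1) ^ 4 ≤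
      256 * ((M : ℝ) ^ (9 / 8 : ℝ) + (M : ℝ) ^ 6 / (S : ℝ) ^ 2) := by
    have : (0 : ℝ) ≤ (M : ℝ) ^ (9 / 8 : ℝ) := by positivity
    linarith
  have hB0 : 0 ≤ (M : ℝ) ^ (9 / 8 : ℝ) + (M : ℝ) ^ 6 / (S : ℝ) ^ 2 := by positivity
  calc C0 * ((M : ℝ) ^ (9 / 8 : ℝ) + (M : ℝ) ^ 6 / ((d : ℝ) + 1) ^ 4) *
        Real.log (((d : ℝ) + 1) / M + 2) ^ 3
      ≤ C0 * (256 * ((M : ℝ) ^ (9 / 8 : ℝ) + (M : ℝ) ^ 6 / (S : ℝ) ^ 2)) *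
        (2 * Real.log ((S : ℝ) / (M : ℝ) ^ 2 + 2)) ^ 3 := by
        apply mul_le_mul _ hlog3 (by positivity) (by positivity)
        exact mul_le_mul_of_nonneg_left hB (by linarith)
    _ = 2048 * C0 * ((M : ℝ) ^ (9 / 8 : ℝ) + (M : ℝ) ^ 6 / (S : ℝ) ^ 2) *
        Real.log ((S : ℝ) / (M : ℝ) ^ 2 + 2) ^ 3 := by ring

end Pool.Agent.Lib.MP_6b2d39_agUq
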