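import Pool.Agent.Lib.MP_6b2d39_agUe.MainM
import Pool.Agent.Lib.MP_6b2d39_agUq.TriQ

set_option autoImplicit false

namespace Pool.Agent.Lib.MP_6b2d39_agUq

open Pool.Agent.Lib.MP_6b2d39_agUe Pool.Agent.Lib.MP_6b2d39_agCr

private theorem critq_num {n A M m S Sm T : ℕ} (hM : 1 ≤ M) (hm : A ≤ m)
    (hn : 256 * 10 ^ 6 * M ^ 4 ≤ n * A ^ 3) (hT : n * m ≤ 4 * M * T) (hS : S ≤ n * M ^ 2)
    (hSm : T * m ^ 2 ≤ 4 * Sm) : 10 ^ 6 * m ^ 2 * A * S ≤ Sm ^ 2 := by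
  have h1 : n * m ^ 3 ≤ 16 * M * Sm := by
    calc n * m ^ 3 = n * m * m ^ 2 := by ring
      _ ≤ 4 * M * T * m ^ 2 := Nat.mul_le_mul_right _ hT
      _ = 4 * M * (T * m ^ 2) := by ring
      _ ≤ 4 * M * (4 * Sm) := Nat.mul_le_mul_left _ hSm
      _ = 16 * M * Sm := by ring
  have h2 : 256 * 10 ^ 6 * M ^ 4 * A ≤ n * m ^ 4 := by
    calc 256 * 10 ^ 6 * M ^ 4 * A ≤ n * A ^ 3 * A := Nat.mul_le_mul_right _ hn
      _ = n * A ^ 4 := by ring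
      _ ≤ n * m ^ 4 := Nat.mul_le_mul_left _ (Nat.pow_le_pow_left hm 4)
  have h3 : 256 * M ^ 2 * (10 ^ 6 * m ^ 2 * A * S) ≤ 256 * M ^ 2 * Sm ^ 2 := by
    calc 256 * M ^ 2 * (10 ^ 6 * m ^ 2 * A * S) ≤
        256 * M ^ 2 * (10 ^ 6 * m ^ 2 * A * (n * M ^ 2)) :=
          Nat.mul_le_mul_left _ (Nat.mul_le_mul_left _ hS)
      _ = n * m ^ 2 * (256 * 10 ^ 6 * M ^ 4 * A) := by ring
      _ ≤ n * m ^ 2 * (n * m ^ 4) := Nat.mul_le_mul_left _ h2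
      _ = (n * m ^ 3) ^ 2 := by ring
      _ ≤ (16 * M * Sm) ^ 2 := Nat.pow_le_pow_left h1 2
      _ = 256 * M ^ 2 * Sm ^ 2 := by ring
  exact Nat.le_of_mul_le_mul_left h3 (by positivity)

/-- UQ8. `exact_m`. For `A ≤ m ≤ M`: the `μ i` with `m < 2 μ i`, `μ i ≤ m` give
`4 S_m ≥ T m ^ 2`, `T` their number, so `16 M S_m ≥ n m ^ 3`, and
`10 ^ 6 m ^ 2 A S ≤ 10 ^ 6 m ^ 2 A n M ^ 2 ≤ (n m ^ 3) ^ 2 / (16 M) ^ 2` because
`256 * 10 ^ 6 M ^ 4 A ≤ n A ^ 4 ≤ n m ^ 4`. -/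
theorem crit_q {n A M : ℕ} {μ : Fin n → ℕ} (hA : 1 ≤ A) (hAM : A ≤ M)
    (hμ : ∀ i, 1 ≤ μ i ∧ μ i ≤ M) (hn : 256 * 10 ^ 6 * M ^ 4 ≤ n * A ^ 3)
    (h : ∀ m, A ≤ m → m ≤ M →
      n * m ≤ 4 * M * (Finset.univ.filter fun i => m < 2 * μ i ∧ μ i ≤ m).card) (d : ℕ) :
    ¬ Sp μ d := by
  have hM : 1 ≤ M := hA.trans hAM
  have hn0 : 0 < n := by
    rcases Nat.eq_zero_or_pos n with h0 | h0
    · exfalso
      have h1 : 0 < 256 * 10 ^ 6 * M ^ 4 := by positivity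
      rw [h0, Nat.zero_mul] at hn
      exact absurd hn (Nat.not_le.2 h1)
    · exact h0
  have h0 : 0 < ∑ i, μ i ^ 2 := by
    refine Finset.sum_pos (fun i _ => pow_pos (hμ i).1 2) ?_
    have : Nonempty (Fin n) := ⟨⟨0, hn0⟩⟩
    exact Finset.univ_nonempty
  have hS : ∑ i, μ i ^ 2 ≤ n * M ^ 2 := by
    have h1 := Finset.sum_le_card_nsmul (Finset.univ : Finset (Fin n)) (fun i => μ i ^ 2) (M ^ 2)
      (fun i _ => Nat.pow_le_pow_left (hμ i).2 2)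
    rwa [Finset.card_univ, Fintype.card_fin, smul_eq_mul] at h1
  unfold Sp
  rw [not_not]
  refine exact_m hA hAM (fun i => (hμ i).2) h0 (fun m h1 h2 => ?_) d
  refine critq_num hM h1 hn (h m h1 h2) hS ?_
  have h3 : (Finset.univ.filter fun i => m < 2 * μ i ∧ μ i ≤ m).card * m ^ 2 ≤
      ∑ i ∈ Finset.univ.filter (fun i => m < 2 * μ i ∧ μ i ≤ m), 4 * μ i ^ 2 := by
    have h4 := Finset.card_nsmul_le_sum (Finset.univ.filter fun i => m < 2 * μ i ∧ μ i ≤ m)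
      (fun i => 4 * μ i ^ 2) (m ^ 2) (fun i hi => by
        have h5 := (Finset.mem_filter.1 hi).2.1
        try dsimp only
        calc m ^ 2 ≤ (2 * μ i) ^ 2 := Nat.pow_le_pow_left h5.le 2
          _ = 4 * μ i ^ 2 := by ring)
    rwa [smul_eq_mul] at h4
  refine h3.trans ?_
  rw [← Finset.mul_sum]
  refine Nat.mul_le_mul_left _ (Finset.sum_le_sum_of_subset ?_)
  intro i hi
  exact Finset.mem_filter.2 ⟨Finset.mem_univ _, (Finset.mem_filter.1 hi).2.2⟩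

end Pool.Agent.Lib.MP_6b2d39_agUq
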