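import Pool.Agent.Lib.MP_6b2d39_agUq.TriQ
import Pool.Agent.Lib.MP_6b2d39_agUq.CntQ

set_option autoImplicit false

namespace Pool.Agent.Lib.MP_6b2d39_agUq

open Pool.Agent.Lib.MP_6b2d39_agCr

private lemma oq_le {n M m : ℕ} {ν : Fin n → ℕ} (hm : m ≤ M) (hν : ∀ i, ν i ≤ M)
    (i : Fin (n + 1)) : (Fin.cons m ν : Fin (n + 1) → ℕ) i ≤ M := by
  refine Fin.cases ?_ (fun j => ?_) i
  · simpa using hm
  · simpa using hν j

private lemma oq_sum {n m : ℕ} {ν : Fin n → ℕ} :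
    ∑ i, (Fin.cons m ν : Fin (n + 1) → ℕ) i ^ 2 = m ^ 2 + ∑ i, ν i ^ 2 := by
  rw [Fin.sum_univ_succ]
  simp

private lemma oq_vd {n m d : ℕ} {ν : Fin n → ℕ} :
    (((vd d (Fin.cons m ν : Fin (n + 1) → ℕ) : ℤ)) : ℝ) = (((d + 2).choose 2 : ℕ) : ℝ)
      - (((m + 1).choose 2 : ℕ) : ℝ) - (((∑ i, ((ν i + 1).choose 2 : ℕ) : ℕ) : ℤ) : ℝ) := by
  unfold vd
  rw [Fin.sum_univ_succ]
  simp only [Fin.cons_zero, Fin.cons_succ]
  push_cast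
  ring

private lemma oq_log {S S' m : ℝ} (hm : 0 < m) (hS : 0 < S) (h1 : S ≤ S') (h2 : S' ≤ 2 * S) :
    Real.log (S' / m ^ 2 + 2) ^ 3 ≤ 8 * Real.log (S / m ^ 2 + 2) ^ 3 := by
  have hx : 0 < S / m ^ 2 := by positivity
  have h3 : S' / m ^ 2 ≤ 2 * (S / m ^ 2) := by
    rw [← mul_div_assoc]
    exact div_le_div_of_nonneg_right h2 (by positivity)
  have h4 : 0 ≤ S' / m ^ 2 := by
    have : 0 < S' := by linarith
    positivity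
  have h5 : Real.log (S' / m ^ 2 + 2) ≤ 2 * Real.log (S / m ^ 2 + 2) := by
    have e : 2 * Real.log (S / m ^ 2 + 2) = Real.log ((S / m ^ 2 + 2) ^ 2) := by
      rw [Real.log_pow]
      norm_num
    rw [e]
    apply Real.log_le_log (by linarith)
    nlinarith
  have h6 : 0 ≤ Real.log (S' / m ^ 2 + 2) := Real.log_nonneg (by linarith)
  have h7 : Real.log (S' / m ^ 2 + 2) ^ 3 ≤ (2 * Real.log (S / m ^ 2 + 2)) ^ 3 :=
    pow_le_pow_left₀ h6 h5 3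
  have e2 : (2 * Real.log (S / m ^ 2 + 2)) ^ 3 = 8 * Real.log (S / m ^ 2 + 2) ^ 3 := by ring
  rwa [e2] at h7

private lemma oq_log2 : (1 : ℝ) / 4 ≤ Real.log 2 ^ 3 := by
  have h := Real.log_two_gt_d9
  have h1 : (0.65 : ℝ) ≤ Real.log 2 := by linarith
  have h2 : (0.65 : ℝ) ^ 3 ≤ Real.log 2 ^ 3 := pow_le_pow_left₀ (by norm_num) h1 3
  refine le_trans ?_ h2
  norm_num

private lemma oq_small {n M : ℕ} {ν : Fin n → ℕ} {W : ℝ} (hM : 1 ≤ M)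
    (hS : 0 < ∑ i, ν i ^ 2) (hlt : ∑ i, ν i ^ 2 < 16 * M ^ 2)
    (hW : W = ((M : ℝ) ^ (9 / 8 : ℝ) + (M : ℝ) ^ 6 / ((∑ i, ν i ^ 2 : ℕ) : ℝ) ^ 2) *
      Real.log (((∑ i, ν i ^ 2 : ℕ) : ℝ) / (M : ℝ) ^ 2 + 2) ^ 3) :
    0 ≤ W ∧ (M : ℝ) ^ 2 ≤ 4096 * (M * W / √((∑ i, ν i ^ 2 : ℕ) : ℝ)) := by
  have hS1 : (0 : ℝ) < ((∑ i, ν i ^ 2 : ℕ) : ℝ) := by exact_mod_cast hS
  have hS2 : ((∑ i, ν i ^ 2 : ℕ) : ℝ) ≤ 16 * (M : ℝ) ^ 2 := by exact_mod_cast hlt.le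
  have hm : (1 : ℝ) ≤ (M : ℝ) := by exact_mod_cast hM
  generalize ((∑ i, ν i ^ 2 : ℕ) : ℝ) = S at *
  generalize (M : ℝ) = m at *
  have hm0 : 0 < m := by linarith
  have hL : (1 : ℝ) / 4 ≤ Real.log (S / m ^ 2 + 2) ^ 3 := by
    refine oq_log2.trans (pow_le_pow_left₀ (Real.log_nonneg (by norm_num)) ?_ 3)
    apply Real.log_le_log (by norm_num)
    have : 0 ≤ S / m ^ 2 := by positivity
    linarith
  have h0 : 0 ≤ m ^ (9 / 8 : ℝ) := (Real.rpow_pos_of_pos hm0 _).le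
  have h1 : m ^ 2 / 256 ≤ m ^ 6 / S ^ 2 := by
    rw [div_le_div_iff₀ (by norm_num) (by positivity)]
    have h2 : S ^ 2 ≤ (16 * m ^ 2) ^ 2 := pow_le_pow_left₀ hS1.le hS2 2
    nlinarith [mul_le_mul_of_nonneg_left h2 (sq_nonneg m)]
  have h3 : m ^ 2 / 1024 ≤ W := by
    rw [hW]
    have h4 : m ^ 2 / 256 * (1 / 4) ≤ (m ^ (9 / 8 : ℝ) + m ^ 6 / S ^ 2) *
        Real.log (S / m ^ 2 + 2) ^ 3 := by
      apply mul_le_mul (by linarith) hL (by norm_num)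
      have : 0 ≤ m ^ 6 / S ^ 2 := by positivity
      linarith
    linarith
  have hW0 : 0 ≤ W := le_trans (by positivity) h3
  refine ⟨hW0, ?_⟩
  have hs : √S ≤ 4 * m := by
    apply Real.sqrt_le_iff.2
    refine ⟨by linarith, ?_⟩
    nlinarith
  have hs0 : 0 < √S := Real.sqrt_pos.2 hS1
  have h5 : m * W / (4 * m) ≤ m * W / √S :=
    div_le_div_of_nonneg_left (by positivity) hs0 hs
  have h6 : m * W / (4 * m) = W / 4 := by
    field_simp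
  rw [h6] at h5
  linarith

/-- UQ6 (all multiplicities but one are arbitrary). `S' = ∑ ν i ^ 2 + m ^ 2` of
`Fin.cons m ν` (`Fin.sum_univ_succ`), `m ≤ M`; `vd d (Fin.cons m ν) = C(d+2,2) - C(m+1,2) - a`,
`a = ∑ C(ν i + 1, 2)`. By `sp_le` all `d` are in a fixed `range K` (so the set is finite).
If `16 M ^ 2 ≤ S`: `S ≤ S' ≤ 2 S`, `sp_ge` gives `d + 1 ≥ √S / 4 =: D ≥ 1`, `loc_q` (constant `C1`)
gives `|..| < 8 C1 W`, `W` the window of the statement (`log (2 x + 2) ≤ 2 log (x + 2)`,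
`x = S / M ^ 2`), and `8 C1 W ≥ M`; `cnt_q` with `8 C1 W`. If `S < 16 M ^ 2`:
`W ≥ (M ^ 6 / S ^ 2) (log 2) ^ 3 ≥ M ^ 2 / 1000`, `sp_le` gives `(d + 1) ^ 2 ≤ 46 M ^ 2`, so there are
at most `(M + 1) 7 M` pairs, and `M W / √S ≥ M ^ 2 / 4000`. -/
theorem one_q : ∃ C : ℝ, 1 ≤ C ∧ ∀ (n M : ℕ) (ν : Fin n → ℕ) (W : ℝ), 1 ≤ M → (∀ i, ν i ≤ M) →
    0 < ∑ i, ν i ^ 2 →
    W = ((M : ℝ) ^ (9 / 8 : ℝ) + (M : ℝ) ^ 6 / ((∑ i, ν i ^ 2 : ℕ) : ℝ) ^ 2) *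
      Real.log (((∑ i, ν i ^ 2 : ℕ) : ℝ) / (M : ℝ) ^ 2 + 2) ^ 3 →
    {p : ℕ × ℕ | p.1 ≤ M ∧ Sp (Fin.cons p.1 ν : Fin (n + 1) → ℕ) p.2}.Finite ∧
    (({p : ℕ × ℕ | p.1 ≤ M ∧ Sp (Fin.cons p.1 ν : Fin (n + 1) → ℕ) p.2}.ncard : ℕ) : ℝ) ≤
      C * (M * W / √((∑ i, ν i ^ 2 : ℕ) : ℝ) + √W) := by
  obtain ⟨C1, hC1, hloc⟩ := loc_q
  refine ⟨1280 * C1 + 57344, by linarith, ?_⟩
  intro n M ν W hM hν hS hW
  have hsub : ∀ (F : Finset (ℕ × ℕ)),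
      (∀ p : ℕ × ℕ, p.1 ≤ M → Sp (Fin.cons p.1 ν : Fin (n + 1) → ℕ) p.2 → p ∈ F) →
      {p : ℕ × ℕ | p.1 ≤ M ∧ Sp (Fin.cons p.1 ν : Fin (n + 1) → ℕ) p.2}.Finite ∧
      {p : ℕ × ℕ | p.1 ≤ M ∧ Sp (Fin.cons p.1 ν : Fin (n + 1) → ℕ) p.2}.ncard ≤ F.card := by
    intro F hF
    have h1 : {p : ℕ × ℕ | p.1 ≤ M ∧ Sp (Fin.cons p.1 ν : Fin (n + 1) → ℕ) p.2} ⊆
        (F : Set (ℕ × ℕ)) := fun p hp => Finset.mem_coe.2 (hF p hp.1 hp.2)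
    refine ⟨(Finset.finite_toSet F).subset h1, ?_⟩
    have h2 := Set.ncard_le_ncard h1 (Finset.finite_toSet F)
    rwa [Set.ncard_coe_finset] at h2
  rcases Nat.lt_or_ge (∑ i, ν i ^ 2) (16 * M ^ 2) with hlt | hge
  · -- few points
    obtain ⟨hW0, hbig⟩ := oq_small hM hS hlt hW
    obtain ⟨h1, h2⟩ := hsub (Finset.range (M + 1) ×ˢ Finset.range (7 * M)) (by
      intro p hp hsp
      have h3 := sp_le hM (oq_le hp hν) hsp
      rw [oq_sum] at h3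
      rw [Finset.mem_product, Finset.mem_range, Finset.mem_range]
      refine ⟨by omega, ?_⟩
      have h4 : p.1 ^ 2 ≤ M ^ 2 := Nat.pow_le_pow_left hp 2
      by_contra hcon
      have h5 : 7 * M ≤ p.2 := by omega
      have h6 : (7 * M) ^ 2 ≤ (p.2 + 1) ^ 2 := Nat.pow_le_pow_left (by omega) 2
      have h7 : (7 * M) ^ 2 = 49 * M ^ 2 := by ring
      have h8 : 1 ≤ M ^ 2 := Nat.one_le_pow _ _ hM
      omega)
    refine ⟨h1, ?_⟩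
    rw [Finset.card_product, Finset.card_range, Finset.card_range] at h2
    have h3 : ((M + 1) * (7 * M) : ℕ) ≤ 14 * M ^ 2 := by nlinarith
    have h4 : (({p : ℕ × ℕ | p.1 ≤ M ∧ Sp (Fin.cons p.1 ν : Fin (n + 1) → ℕ) p.2}.ncard : ℕ) : ℝ)
        ≤ 14 * (M : ℝ) ^ 2 := by exact_mod_cast h2.trans h3
    have h5 : 0 ≤ √W := Real.sqrt_nonneg _
    have h6 : 0 ≤ (M : ℝ) * W / √((∑ i, ν i ^ 2 : ℕ) : ℝ) := by positivity
    refine h4.trans ?_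
    generalize (M : ℝ) * W / √((∑ i, ν i ^ 2 : ℕ) : ℝ) = q at *
    have h7 : (0 : ℝ) ≤ 1280 * C1 * (q + √W) := by positivity
    nlinarith
  · -- many points
    have hS1 : (0 : ℝ) < ((∑ i, ν i ^ 2 : ℕ) : ℝ) := by exact_mod_cast hS
    have hge' : 16 * (M : ℝ) ^ 2 ≤ ((∑ i, ν i ^ 2 : ℕ) : ℝ) := by exact_mod_cast hge
    have hm : (1 : ℝ) ≤ (M : ℝ) := by exact_mod_cast hM
    have hm0 : (0 : ℝ) < (M : ℝ) := by linarith
    set Sr : ℝ := ((∑ i, ν i ^ 2 : ℕ) : ℝ) with hSr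
    have hD : (1 : ℝ) ≤ √Sr / 4 := by
      have h1 : (4 : ℝ) ≤ √Sr := by
        apply Real.le_sqrt_of_sq_le
        nlinarith
      linarith
    have hA : (M : ℝ) ≤ (M : ℝ) ^ (9 / 8 : ℝ) := by
      calc (M : ℝ) = (M : ℝ) ^ (1 : ℝ) := (Real.rpow_one _).symm
        _ ≤ (M : ℝ) ^ (9 / 8 : ℝ) := Real.rpow_le_rpow_of_exponent_le hm (by norm_num)
    have hL : (1 : ℝ) ≤ Real.log (Sr / (M : ℝ) ^ 2 + 2) ^ 3 := by
      apply one_le_pow₀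
      rw [Real.le_log_iff_exp_le (by positivity)]
      have h1 := Real.exp_one_lt_d9
      have h2 : 16 ≤ Sr / (M : ℝ) ^ 2 := by
        rw [le_div_iff₀ (by positivity)]
        exact hge'
      linarith
    have hq : 0 ≤ (M : ℝ) ^ 6 / Sr ^ 2 := by positivity
    have hMW : (M : ℝ) ≤ W := by
      rw [hW]
      nlinarith
    have hW0 : 0 ≤ W := by linarith
    have hMW8 : (M : ℝ) ≤ 8 * C1 * W := by nlinarith
    have hcnt := cnt_q M (12 * M ^ 2 + 2 * (M ^ 2 + ∑ i, ν i ^ 2))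
      ((∑ i, ((ν i + 1).choose 2 : ℕ) : ℕ) : ℤ) (√Sr / 4) (8 * C1 * W) hM hD hMW8
    obtain ⟨h1, h2⟩ := hsub ((Finset.range (M + 1) ×ˢ Finset.range
        (12 * M ^ 2 + 2 * (M ^ 2 + ∑ i, ν i ^ 2))).filter (fun p : ℕ × ℕ =>
          √Sr / 4 ≤ (p.2 : ℝ) + 1 ∧ |(((p.2 + 2).choose 2 : ℕ) : ℝ)
          - (((p.1 + 1).choose 2 : ℕ) : ℝ)
          - (((∑ i, ((ν i + 1).choose 2 : ℕ) : ℕ) : ℤ) : ℝ)| < 8 * C1 * W)) (by
      intro p hp hsp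
      have hp2 : p.1 ^ 2 ≤ M ^ 2 := Nat.pow_le_pow_left hp 2
      have hle := oq_le hp hν
      refine Finset.mem_filter.2 ⟨?_, ?_, ?_⟩
      · have h3 := sp_le hM hle hsp
        rw [oq_sum] at h3
        rw [Finset.mem_product, Finset.mem_range, Finset.mem_range]
        refine ⟨by omega, ?_⟩
        have h4 : p.2 + 1 ≤ (p.2 + 1) ^ 2 := Nat.le_self_pow (by norm_num) _
        omega
      · have h3 := sp_ge hM hle (by rw [oq_sum]; omega) hsp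
        rw [oq_sum] at h3
        have h4 : ∑ i, ν i ^ 2 ≤ 16 * (p.2 + 1) ^ 2 := by omega
        have h5 : Sr ≤ 16 * ((p.2 : ℝ) + 1) ^ 2 := by
          rw [hSr]
          exact_mod_cast h4
        have h6 : √Sr ≤ 4 * ((p.2 : ℝ) + 1) := by
          apply Real.sqrt_le_iff.2
          refine ⟨by positivity, ?_⟩
          nlinarith
        linarith
      · have h3 := hloc (n + 1) p.2 M _ hM hle (by rw [oq_sum]; omega) hsp
        rw [oq_vd] at h3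
        refine h3.trans_le ?_
        rw [oq_sum]
        have hS'1 : Sr ≤ ((p.1 ^ 2 + ∑ i, ν i ^ 2 : ℕ) : ℝ) := by
          rw [hSr]
          exact_mod_cast Nat.le_add_left _ _
        have hS'2 : ((p.1 ^ 2 + ∑ i, ν i ^ 2 : ℕ) : ℝ) ≤ 2 * Sr := by
          have h5 : p.1 ^ 2 + ∑ i, ν i ^ 2 ≤ 2 * ∑ i, ν i ^ 2 := by
            have : 1 ≤ M ^ 2 := Nat.one_le_pow _ _ hM
            omega
          rw [hSr]
          exact_mod_cast h5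
        generalize ((p.1 ^ 2 + ∑ i, ν i ^ 2 : ℕ) : ℝ) = S' at *
        have h6 := oq_log hm0 hS1 hS'1 hS'2
        have hS'0 : 0 < S' := lt_of_lt_of_le hS1 hS'1
        have h7 : (M : ℝ) ^ 6 / S' ^ 2 ≤ (M : ℝ) ^ 6 / Sr ^ 2 :=
          div_le_div_of_nonneg_left (by positivity) (by positivity)
            (pow_le_pow_left₀ hS1.le hS'1 2)
        have h8 : 0 ≤ (M : ℝ) ^ 6 / S' ^ 2 := by positivity
        have h9 : 0 ≤ Real.log (S' / (M : ℝ) ^ 2 + 2) ^ 3 := by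
          apply pow_nonneg
          apply Real.log_nonneg
          have : 0 ≤ S' / (M : ℝ) ^ 2 := by positivity
          linarith
        have h10 : ((M : ℝ) ^ (9 / 8 : ℝ) + (M : ℝ) ^ 6 / S' ^ 2) *
            Real.log (S' / (M : ℝ) ^ 2 + 2) ^ 3 ≤
            ((M : ℝ) ^ (9 / 8 : ℝ) + (M : ℝ) ^ 6 / Sr ^ 2) *
            (8 * Real.log (Sr / (M : ℝ) ^ 2 + 2) ^ 3) :=
          mul_le_mul (by linarith) h6 h9 (by linarith)
        have h11 : C1 * ((M : ℝ) ^ (9 / 8 : ℝ) + (M : ℝ) ^ 6 / S' ^ 2) *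
            Real.log (S' / (M : ℝ) ^ 2 + 2) ^ 3 = C1 * (((M : ℝ) ^ (9 / 8 : ℝ)
              + (M : ℝ) ^ 6 / S' ^ 2) * Real.log (S' / (M : ℝ) ^ 2 + 2) ^ 3) := by ring
        have h12 : 8 * C1 * W = C1 * (((M : ℝ) ^ (9 / 8 : ℝ) + (M : ℝ) ^ 6 / Sr ^ 2) *
            (8 * Real.log (Sr / (M : ℝ) ^ 2 + 2) ^ 3)) := by
          rw [hW]
          ring
        rw [h11, h12]
        exact mul_le_mul_of_nonneg_left h10 (by linarith))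
    refine ⟨h1, ?_⟩
    have h3 : (({p : ℕ × ℕ | p.1 ≤ M ∧ Sp (Fin.cons p.1 ν : Fin (n + 1) → ℕ) p.2}.ncard : ℕ) : ℝ)
        ≤ 40 * (M * (8 * C1 * W) / (√Sr / 4) + √(8 * C1 * W)) :=
      (Nat.cast_le.2 h2).trans hcnt
    refine h3.trans ?_
    have hs0 : 0 < √Sr := Real.sqrt_pos.2 hS1
    have e1 : (M : ℝ) * (8 * C1 * W) / (√Sr / 4) = 32 * C1 * (M * W / √Sr) := by
      field_simp
      ring
    have e2 : √(8 * C1 * W) ≤ 8 * C1 * √W := by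
      rw [Real.sqrt_mul (by positivity)]
      apply mul_le_mul_of_nonneg_right _ (Real.sqrt_nonneg _)
      apply Real.sqrt_le_iff.2
      refine ⟨by positivity, ?_⟩
      nlinarith
    rw [e1]
    have h4 : 0 ≤ (M : ℝ) * W / √Sr := by positivity
    have h5 : 0 ≤ √W := Real.sqrt_nonneg _
    generalize (M : ℝ) * W / √Sr = q at *
    generalize √W = w at *
    have h6 : 0 ≤ C1 * w := by positivity
    have h7 : 0 ≤ C1 * q := by positivity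
    nlinarith

end Pool.Agent.Lib.MP_6b2d39_agUq
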