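import Pool.Agent.Lib.MP_6b2d39_agUq.TriQ

set_option autoImplicit false

namespace Pool.Agent.Lib.MP_6b2d39_agUq

open Pool.Agent.Lib.MP_6b2d39_agCr

private theorem pq_deg {n d M : ℕ} {μ : Fin n → ℕ} (hn : 1 ≤ n) (hM : 1 ≤ M)
    (hμ : ∀ i, μ i ≤ M) (h : Sp μ d) : d < ⌊4 * (M : ℝ) * √(n : ℝ)⌋₊ := by
  have h1 := sp_le hM hμ h
  have h2 : ∑ i, μ i ^ 2 ≤ n * M ^ 2 := by
    calc ∑ i, μ i ^ 2 ≤ ∑ _i : Fin n, M ^ 2 :=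
          Finset.sum_le_sum fun i _ => Nat.pow_le_pow_left (hμ i) 2
      _ = n * M ^ 2 := by rw [Finset.sum_const, Finset.card_univ, Fintype.card_fin, smul_eq_mul]
  have h3 : M ^ 2 ≤ n * M ^ 2 := Nat.le_mul_of_pos_left _ hn
  have h4 : (d + 1) ^ 2 ≤ 14 * (n * M ^ 2) := by omega
  have h5 : (((d + 1 : ℕ) : ℝ)) ^ 2 ≤ 14 * ((n : ℝ) * (M : ℝ) ^ 2) := by exact_mod_cast h4
  have hs : √(n : ℝ) ^ 2 = n := Real.sq_sqrt (Nat.cast_nonneg n)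
  have h6 : (((d + 1 : ℕ) : ℝ)) ^ 2 ≤ (4 * (M : ℝ) * √(n : ℝ)) ^ 2 := by
    have h7 : (4 * (M : ℝ) * √(n : ℝ)) ^ 2 = 16 * ((n : ℝ) * (M : ℝ) ^ 2) := by
      rw [mul_pow, mul_pow, hs]
      ring
    have h8 : (0 : ℝ) ≤ (n : ℝ) * (M : ℝ) ^ 2 := by positivity
    rw [h7]
    linarith
  have h9 : (((d + 1 : ℕ) : ℝ)) ≤ 4 * (M : ℝ) * √(n : ℝ) :=
    le_of_sq_le_sq h6 (by positivity)
  have h10 : d + 1 ≤ ⌊4 * (M : ℝ) * √(n : ℝ)⌋₊ := Nat.le_floor h9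
  omega

/-- UQ10. All special pairs over the box: `sp_le`, `∑ μ i ^ 2 ≤ n M ^ 2`, so
`(d + 1) ^ 2 ≤ 14 n M ^ 2`, at most `4 M √n` degrees for each `μ` of a set `B` of vectors in the
box. (`1 ≤ n`.) -/
theorem pairs_q {n M : ℕ} (hn : 1 ≤ n) (hM : 1 ≤ M) (B : Finset (Fin n → ℕ))
    (hB : ∀ μ ∈ B, ∀ i, μ i ≤ M) :
    {q : (Fin n → ℕ) × ℕ | q.1 ∈ B ∧ Sp q.1 q.2}.Finite ∧
    (({q : (Fin n → ℕ) × ℕ | q.1 ∈ B ∧ Sp q.1 q.2}.ncard : ℕ) : ℝ) ≤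
      4 * M * √(n : ℝ) * B.card := by
  classical
  have hsub : {q : (Fin n → ℕ) × ℕ | q.1 ∈ B ∧ Sp q.1 q.2} ⊆
      ((B ×ˢ Finset.range ⌊4 * (M : ℝ) * √(n : ℝ)⌋₊ : Finset ((Fin n → ℕ) × ℕ)) :
        Set ((Fin n → ℕ) × ℕ)) := by
    rintro ⟨μ, d⟩ ⟨h1, h2⟩
    rw [Finset.mem_coe, Finset.mem_product, Finset.mem_range]
    exact ⟨h1, pq_deg hn hM (hB μ h1) h2⟩
  refine ⟨(Finset.finite_toSet _).subset hsub, ?_⟩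
  have h1 := Set.ncard_le_ncard hsub (Finset.finite_toSet _)
  rw [Set.ncard_coe_finset, Finset.card_product, Finset.card_range] at h1
  have h2 : ((⌊4 * (M : ℝ) * √(n : ℝ)⌋₊ : ℕ) : ℝ) ≤ 4 * (M : ℝ) * √(n : ℝ) :=
    Nat.floor_le (by positivity)
  have h3 : (({q : (Fin n → ℕ) × ℕ | q.1 ∈ B ∧ Sp q.1 q.2}.ncard : ℕ) : ℝ) ≤
      (B.card : ℝ) * ((⌊4 * (M : ℝ) * √(n : ℝ)⌋₊ : ℕ) : ℝ) := by exact_mod_cast h1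
  have h4 : (B.card : ℝ) * ((⌊4 * (M : ℝ) * √(n : ℝ)⌋₊ : ℕ) : ℝ) ≤
      (B.card : ℝ) * (4 * (M : ℝ) * √(n : ℝ)) :=
    mul_le_mul_of_nonneg_left h2 (Nat.cast_nonneg _)
  calc (({q : (Fin n → ℕ) × ℕ | q.1 ∈ B ∧ Sp q.1 q.2}.ncard : ℕ) : ℝ)
      ≤ (B.card : ℝ) * (4 * (M : ℝ) * √(n : ℝ)) := h3.trans h4
    _ = 4 * M * √(n : ℝ) * B.card := by ring

end Pool.Agent.Lib.MP_6b2d39_agUq
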